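import Pool.Agent.W5h47.Nil.Fourier

/-!
# Smooth functions on the circle which are almost integer valued
-/

set_option autoImplicit false
set_option linter.unusedSectionVars false

open MeasureTheory Filter Topology Set
open scoped ContDiff

namespace Pool.Agent.W5h47.Nil

/-- A periodic function which is `A` where `cos(2πx) ≥ 1/M` and `0` where `cos(2πx) ≤ -1/M`. -/
noncomputable def U (A M x : ℝ) : ℝ :=
  A * Real.smoothTransition ((1 + M * Real.cos (2 * Real.pi * x)) / 2)

lemma U_contDiff (A M : ℝ) : ContDiff ℝ ∞ (U A M) := by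
  unfold U
  refine contDiff_const.mul ?_
  refine (Real.smoothTransition.contDiff (n := ⊤)).comp ?_
  have : ContDiff ℝ ∞ fun x : ℝ => Real.cos (2 * Real.pi * x) :=
    Real.contDiff_cos.comp (contDiff_const.mul contDiff_id)
  exact (contDiff_const.add (contDiff_const.mul this)).div_const 2

lemma U_periodic (A M : ℝ) : Function.Periodic (U A M) 1 := by
  intro x
  unfold U
  rw [show 2 * Real.pi * (x + 1) = 2 * Real.pi * x + 2 * Real.pi by ring, Real.cos_add_two_pi]

lemma iteratedDeriv_periodic {f : ℝ → ℝ} (hf : Function.Periodic f 1) (n : ℕ) :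
    Function.Periodic (iteratedDeriv n f) 1 := by
  intro x
  have h1 : (fun z => f (z + 1)) = f := funext hf
  have h2 := iteratedDeriv_comp_add_const n f 1
  rw [h1] at h2
  exact (congrFun h2 x).symm

lemma exists_bound_periodic {f : ℝ → ℝ} (hf : Function.Periodic f 1) (hc : Continuous f) :
    ∃ B, ∀ x, |f x| ≤ B := by
  obtain ⟨B, hB⟩ := (isCompact_Icc (a := (0 : ℝ)) (b := 1)).exists_bound_of_continuousOn
    hc.continuousOn
  refine ⟨B, fun x => ?_⟩
  obtain ⟨y, hy, hxy⟩ := hf.exists_mem_Ico₀ one_pos x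
  rw [hxy]
  exact hB y ⟨hy.1, hy.2.le⟩

lemma exists_deriv_bound (A M : ℝ) (k : ℕ) :
    ∃ B : ℝ, 1 ≤ B ∧ ∀ n ≤ k, ∀ x, |iteratedDeriv n (U A M) x| ≤ B := by
  have h : ∀ n : ℕ, ∃ B, ∀ x, |iteratedDeriv n (U A M) x| ≤ B := fun n =>
    exists_bound_periodic (iteratedDeriv_periodic (U_periodic A M) n)
      ((U_contDiff A M).continuous_iteratedDeriv n (by exact_mod_cast le_top))
  choose B hB using h
  have hB0 : ∀ n, 0 ≤ B n := fun n => (abs_nonneg _).trans (hB n 0)
  refine ⟨1 + ∑ n ∈ Finset.range (k + 1), B n, ?_, fun n hn x => ?_⟩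
  · have := Finset.sum_nonneg fun n (_ : n ∈ Finset.range (k + 1)) => hB0 n
    linarith
  · have := Finset.single_le_sum (f := B) (fun n _ => hB0 n)
      (Finset.mem_range.2 (Nat.lt_succ_of_le hn))
    linarith [hB n x]

/-- `cos(2πw)` on the circle. -/
noncomputable def cc (w : UnitAddCircle) : ℝ := (fourier 1 w : ℂ).re

lemma cc_coe (x : ℝ) : cc (x : UnitAddCircle) = Real.cos (2 * Real.pi * x) := by
  unfold cc
  rw [fourier_eq_ex]
  unfold ex
  rw [show (2 * (Real.pi : ℂ) * (((1 : ℤ) * x : ℝ) : ℂ) * Complex.I) =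
    ((2 * Real.pi * x : ℝ) : ℂ) * Complex.I by push_cast; ring]
  rw [Complex.exp_ofReal_mul_I_re]

lemma cc_continuous : Continuous cc := Complex.continuous_re.comp (fourier 1).continuous

lemma cc_half (w : UnitAddCircle) : cc (w + ((1 / 2 : ℝ) : UnitAddCircle)) = -cc w := by
  induction w using QuotientAddGroup.induction_on with
  | H x =>
    have h1 : ((x : UnitAddCircle) + ((1 / 2 : ℝ) : UnitAddCircle)) =
      ((x + 1 / 2 : ℝ) : UnitAddCircle) := rfl
    have h2 : cc ((x : ℝ) : UnitAddCircle) = Real.cos (2 * Real.pi * x) := cc_coe x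
    rw [h1, cc_coe]
    refine Eq.trans ?_ (congrArg Neg.neg h2.symm)
    rw [show 2 * Real.pi * (x + 1 / 2) = 2 * Real.pi * x + Real.pi by ring, Real.cos_add_pi]

lemma cc_zero_null : volume {w : UnitAddCircle | cc w = 0} = 0 := by
  have hmeas : MeasurableSet {w : UnitAddCircle | cc w = 0} :=
    (isClosed_eq cc_continuous continuous_const).measurableSet
  have hmp := UnitAddCircle.measurePreserving_mk 0
  rw [← hmp.measure_preimage hmeas.nullMeasurableSet]
  refine measure_mono_null (t := range fun k : ℤ => (2 * (k : ℝ) + 1) / 4) ?_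
    ((countable_range _).measure_zero _)
  intro x hx
  have hx' : cc (x : UnitAddCircle) = 0 := hx
  rw [cc_coe, Real.cos_eq_zero_iff] at hx'
  obtain ⟨k, hk⟩ := hx'
  have hpi := Real.pi_pos
  refine ⟨k, ?_⟩
  have : 2 * Real.pi * x = 2 * Real.pi * ((2 * k + 1) / 4) := by rw [hk]; ring
  exact (mul_left_cancel₀ (by positivity) this).symm

lemma exists_M {ε : ENNReal} (hε : 0 < ε) :
    ∃ M : ℝ, 0 < M ∧ volume {w : UnitAddCircle | |cc w| < 1 / M} ≤ ε := by
  have hanti : Antitone fun n : ℕ => {w : UnitAddCircle | |cc w| < 1 / ((n : ℝ) + 1)} := by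
    intro m n hmn w hw
    have hw' : |cc w| < 1 / ((n : ℝ) + 1) := hw
    refine lt_of_lt_of_le hw' ?_
    apply one_div_le_one_div_of_le (by positivity)
    have : (m : ℝ) ≤ n := by exact_mod_cast hmn
    linarith
  have hinter : ⋂ n : ℕ, {w : UnitAddCircle | |cc w| < 1 / ((n : ℝ) + 1)} = {w | cc w = 0} := by
    ext w
    simp only [mem_iInter, mem_ofPred_eq]
    constructor
    · intro h
      by_contra hne
      have hpos : 0 < |cc w| := abs_pos.2 hne
      obtain ⟨n, hn⟩ := exists_nat_one_div_lt hpos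
      exact absurd (h n) (not_lt.2 hn.le)
    · intro h n
      rw [h, abs_zero]
      positivity
  have hmeas : ∀ n : ℕ, NullMeasurableSet {w : UnitAddCircle | |cc w| < 1 / ((n : ℝ) + 1)}
      volume := fun n =>
    (isOpen_lt cc_continuous.abs continuous_const).measurableSet.nullMeasurableSet
  have ht := tendsto_measure_iInter_atTop hmeas hanti ⟨0, measure_ne_top _ _⟩
  rw [hinter, cc_zero_null] at ht
  obtain ⟨n, hn⟩ := (ht.eventually (ge_mem_nhds hε)).exists
  exact ⟨(n : ℝ) + 1, by positivity, hn⟩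

/-- The function `U` on the circle. -/
noncomputable def Ut (A M : ℝ) (w : UnitAddCircle) : ℝ :=
  A * Real.smoothTransition ((1 + M * cc w) / 2)

lemma Ut_coe (A M x : ℝ) : Ut A M (x : UnitAddCircle) = U A M x := by
  unfold Ut U
  rw [cc_coe]

lemma Ut_continuous (A M : ℝ) : Continuous (Ut A M) := by
  unfold Ut
  exact continuous_const.mul (Real.smoothTransition.continuous.comp
    ((continuous_const.add (continuous_const.mul cc_continuous)).div_const 2))

lemma Ut_of_ge {A M : ℝ} (hM : 0 < M) {w : UnitAddCircle} (h : 1 / M ≤ cc w) : Ut A M w = A := by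
  unfold Ut
  rw [Real.smoothTransition.one_of_one_le, mul_one]
  rw [div_le_iff₀ hM] at h
  linarith

lemma Ut_of_le {A M : ℝ} (hM : 0 < M) {w : UnitAddCircle} (h : cc w ≤ -(1 / M)) :
    Ut A M w = 0 := by
  unfold Ut
  rw [Real.smoothTransition.zero_of_nonpos, mul_zero]
  have : M * cc w ≤ M * -(1 / M) := mul_le_mul_of_nonneg_left h hM.le
  have h2 : M * -(1 / M) = -1 := by field_simp
  linarith

lemma Ut_mem {A : ℝ} (hA : 0 ≤ A) (M : ℝ) (w : UnitAddCircle) : Ut A M w ∈ Icc 0 A := by
  unfold Ut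
  constructor
  · exact mul_nonneg hA (Real.smoothTransition.nonneg _)
  · exact mul_le_of_le_one_right hA (Real.smoothTransition.le_one _)

end Pool.Agent.W5h47.Nil
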