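import Pool.Agent.W5h47.Nil.Defs

/-!
# Time-changes of continuous flows on compact spaces
-/

set_option autoImplicit false
set_option linter.unusedSectionVars false

open MeasureTheory Filter Topology Set

namespace Pool.Agent.W5h47.Nil

variable {M : Type} [TopologicalSpace M]

/-- The additive cocycle of `α`. -/
noncomputable def cocyc (φ : ℝ → M → M) (α : M → ℝ) (x : M) (t : ℝ) : ℝ :=
  ∫ s in (0 : ℝ)..t, α (φ s x)

section
variable {φ : ℝ → M → M} {α : M → ℝ} (hφ : IsFlow φ)
  (hc : Continuous fun q : ℝ × M => φ q.1 q.2) (hα : Continuous α)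
  {c : ℝ} (hc0 : 0 < c) (hcα : ∀ x, c ≤ α x)

include hc hα in
lemma cont_orbit (x : M) : Continuous fun s => α (φ s x) :=
  hα.comp (hc.comp (continuous_id.prodMk continuous_const))

include hc in
lemma cont_time (t : ℝ) : Continuous (φ t) :=
  hc.comp (continuous_const.prodMk continuous_id)

include hc hα in
lemma cocyc_continuous : Continuous fun q : M × ℝ => cocyc φ α q.1 q.2 := by
  unfold cocyc
  refine intervalIntegral.continuous_parametric_intervalIntegral_of_continuous
    (f := fun (q : M × ℝ) (s : ℝ) => α (φ s q.1)) ?_ continuous_snd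
  exact hα.comp (hc.comp (continuous_snd.prodMk (continuous_fst.comp continuous_fst)))

include hc hα in
lemma cocyc_hasDerivAt (x : M) (t : ℝ) : HasDerivAt (cocyc φ α x) (α (φ t x)) t :=
  intervalIntegral.integral_hasDerivAt_right ((cont_orbit hc hα x).intervalIntegrable _ _)
    ((cont_orbit hc hα x).stronglyMeasurableAtFilter _ _) (cont_orbit hc hα x).continuousAt

omit [TopologicalSpace M] in
@[simp] lemma cocyc_zero (x : M) : cocyc φ α x 0 = 0 := by simp [cocyc]

include hφ hc hα in
lemma cocyc_add (x : M) (s t : ℝ) :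
    cocyc φ α x (s + t) = cocyc φ α x s + cocyc φ α (φ s x) t := by
  unfold cocyc
  have h : ∫ r in (0 : ℝ)..t, α (φ r (φ s x)) = ∫ r in s..(s + t), α (φ r x) := by
    have := intervalIntegral.integral_comp_add_right (a := 0) (b := t)
      (fun r => α (φ r x)) s
    simp only [zero_add] at this
    rw [add_comm s t, ← this]
    refine intervalIntegral.integral_congr fun r _ => ?_
    simp only [hφ.2]
  rw [h, intervalIntegral.integral_add_adjacent_intervals]
  · exact (cont_orbit hc hα x).intervalIntegrable _ _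
  · exact (cont_orbit hc hα x).intervalIntegrable _ _

include hc hα hcα in
lemma cocyc_sub_ge (x : M) {s t : ℝ} (hst : s ≤ t) :
    c * (t - s) ≤ cocyc φ α x t - cocyc φ α x s := by
  unfold cocyc
  rw [intervalIntegral.integral_interval_sub_left
    ((cont_orbit hc hα x).intervalIntegrable _ _) ((cont_orbit hc hα x).intervalIntegrable _ _)]
  have h := intervalIntegral.integral_mono_on hst
    (continuous_const.intervalIntegrable (μ := volume) (u := fun _ => c) s t)
    ((cont_orbit hc hα x).intervalIntegrable s t) fun r _ => hcα (φ r x)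
  simpa [mul_comm] using h

include hc hα hcα hc0 in
lemma cocyc_strictMono (x : M) : StrictMono (cocyc φ α x) := fun s t hst => by
  have := cocyc_sub_ge hc hα hcα x hst.le
  nlinarith [mul_pos hc0 (sub_pos.2 hst)]

include hc hα hcα hc0 in
lemma cocyc_abs (x : M) (s t : ℝ) : c * |t - s| ≤ |cocyc φ α x t - cocyc φ α x s| := by
  rcases le_total s t with h | h
  · have h1 := cocyc_sub_ge hc hα hcα x h
    rw [abs_of_nonneg (sub_nonneg.2 h), abs_of_nonneg]
    · exact h1
    · exact le_trans (mul_nonneg hc0.le (sub_nonneg.2 h)) h1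
  · have h1 := cocyc_sub_ge hc hα hcα x h
    rw [abs_sub_comm t s, abs_sub_comm (cocyc φ α x t), abs_of_nonneg (sub_nonneg.2 h),
      abs_of_nonneg]
    · exact h1
    · exact le_trans (mul_nonneg hc0.le (sub_nonneg.2 h)) h1

include hc hα hcα hc0 in
lemma cocyc_surjective (x : M) : Function.Surjective (cocyc φ α x) := by
  have hcont : Continuous (cocyc φ α x) :=
    (cocyc_continuous hc hα).comp (continuous_const.prodMk continuous_id)
  refine hcont.surjective ?_ ?_
  · refine tendsto_atTop_mono' _ ?_ (tendsto_id.const_mul_atTop hc0)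
    filter_upwards [eventually_ge_atTop 0] with t ht
    have := cocyc_sub_ge hc hα hcα x ht
    simpa using this
  · refine tendsto_atBot_mono' _ ?_ (tendsto_id.const_mul_atBot hc0)
    filter_upwards [eventually_le_atBot 0] with t ht
    have := cocyc_sub_ge hc hα hcα x ht
    simp only [zero_sub, cocyc_zero] at this
    simp only [id]
    linarith

/-- The inverse of the cocycle. -/
noncomputable def invc (φ : ℝ → M → M) (α : M → ℝ) (x : M) (t : ℝ) : ℝ :=
  Function.invFun (cocyc φ α x) t

include hc hα hcα hc0 in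
lemma cocyc_invc (x : M) (t : ℝ) : cocyc φ α x (invc φ α x t) = t :=
  Function.invFun_eq (cocyc_surjective hc hα hc0 hcα x t)

include hc hα hcα hc0 in
lemma invc_cocyc (x : M) (t : ℝ) : invc φ α x (cocyc φ α x t) = t :=
  Function.leftInverse_invFun (cocyc_strictMono hc hα hc0 hcα x).injective t

include hc hα hcα hc0 in
lemma invc_continuous : Continuous fun q : M × ℝ => invc φ α q.1 q.2 := by
  rw [continuous_iff_continuousAt]
  rintro ⟨x, t⟩
  have h1 : Continuous fun q : M × ℝ => |q.2 - cocyc φ α q.1 (invc φ α x t)| :=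
    (continuous_snd.sub ((cocyc_continuous hc hα).comp
      (continuous_fst.prodMk continuous_const))).abs
  have h2 : Tendsto (fun q : M × ℝ => |q.2 - cocyc φ α q.1 (invc φ α x t)| / c)
      (𝓝 (x, t)) (𝓝 0) := by
    have := (h1.div_const c).tendsto (x, t)
    simpa [cocyc_invc hc hα hc0 hcα] using this
  rw [ContinuousAt, tendsto_iff_dist_tendsto_zero]
  refine squeeze_zero (fun _ => dist_nonneg) (fun q => ?_) h2
  rw [le_div_iff₀ hc0, Real.dist_eq, mul_comm]
  have := cocyc_abs hc hα hc0 hcα q.1 (invc φ α x t) (invc φ α q.1 q.2)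
  rwa [cocyc_invc hc hα hc0 hcα] at this

/-- The time-changed flow. -/
noncomputable def tcf (φ : ℝ → M → M) (α : M → ℝ) (t : ℝ) (x : M) : M := φ (invc φ α x t) x

include hc hα hcα hc0 in
lemma tcf_isTimeChange (x : M) (t : ℝ) : tcf φ α (cocyc φ α x t) x = φ t x := by
  unfold tcf
  rw [invc_cocyc hc hα hc0 hcα]

include hc hα hcα hc0 in
lemma tcf_continuous : Continuous fun q : ℝ × M => tcf φ α q.1 q.2 :=
  hc.comp (((invc_continuous hc hα hc0 hcα).comp (continuous_snd.prodMk continuous_fst)).prodMk
    continuous_snd)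

include hφ hc hα hcα hc0 in
lemma tcf_isFlow : IsFlow (tcf φ α) := by
  constructor
  · intro x
    have := tcf_isTimeChange hc hα hc0 hcα x 0
    rwa [cocyc_zero, hφ.1] at this
  · intro s t x
    have h1 : cocyc φ α x (invc φ α x t + invc φ α (tcf φ α t x) s) = s + t := by
      rw [cocyc_add hφ hc hα, cocyc_invc hc hα hc0 hcα]
      show t + cocyc φ α (tcf φ α t x) (invc φ α (tcf φ α t x) s) = s + t
      rw [cocyc_invc hc hα hc0 hcα, add_comm]
    conv_lhs => rw [← h1, tcf_isTimeChange hc hα hc0 hcα, add_comm, hφ.2]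
    rfl

include hφ hc hα hcα hc0 in
/-- The substitution `u = A(x, s)` along an orbit. -/
lemma orbit_subst (g : M → ℝ) (hg : Continuous g) (x : M) (t S : ℝ) :
    ∫ s in (0 : ℝ)..S, g (tcf φ α t (φ s x)) * α (φ s x) =
      ∫ u in t..(t + cocyc φ α x S), g (tcf φ α u x) := by
  have hcont : Continuous fun u => g (tcf φ α (t + u) x) :=
    hg.comp ((tcf_continuous hc hα hc0 hcα).comp
      ((continuous_const.add continuous_id).prodMk continuous_const))
  have h := intervalIntegral.integral_comp_mul_deriv (a := 0) (b := S)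
    (f := cocyc φ α x) (f' := fun s => α (φ s x)) (g := fun u => g (tcf φ α (t + u) x))
    (fun s _ => cocyc_hasDerivAt hc hα x s) (cont_orbit hc hα x).continuousOn hcont
  have h2 : ∫ s in (0 : ℝ)..S, g (tcf φ α t (φ s x)) * α (φ s x) =
      ∫ s in (0 : ℝ)..S, ((fun u => g (tcf φ α (t + u) x)) ∘ cocyc φ α x) s * α (φ s x) := by
    refine intervalIntegral.integral_congr fun s _ => ?_
    simp only [Function.comp]
    rw [(tcf_isFlow hφ hc hα hc0 hcα).2, tcf_isTimeChange hc hα hc0 hcα]
  rw [h2, h, cocyc_zero]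
  have := intervalIntegral.integral_comp_add_left (a := 0) (b := cocyc φ α x S)
    (fun u => g (tcf φ α u x)) t
  rw [this, add_zero]

include hφ hc hα hcα hc0 in
lemma orbit_diff (g : M → ℝ) (hg : Continuous g) {K : ℝ} (hK : ∀ x, |g x| ≤ K) (x : M)
    (t S : ℝ) :
    |∫ s in (0 : ℝ)..S, (g (tcf φ α t (φ s x)) * α (φ s x) - g (φ s x) * α (φ s x))| ≤
      2 * K * |t| := by
  have hψ := tcf_continuous hc hα hc0 hcα
  have hfl := tcf_isFlow hφ hc hα hc0 hcα
  have hcu : Continuous fun u => g (tcf φ α u x) :=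
    hg.comp (hψ.comp (continuous_id.prodMk continuous_const))
  have c1 : Continuous fun s => g (tcf φ α t (φ s x)) * α (φ s x) :=
    (hg.comp (hψ.comp (continuous_const.prodMk
      (hc.comp (continuous_id.prodMk continuous_const))))).mul (cont_orbit hc hα x)
  have c2 : Continuous fun s => g (φ s x) * α (φ s x) :=
    (hg.comp (hc.comp (continuous_id.prodMk continuous_const))).mul (cont_orbit hc hα x)
  rw [intervalIntegral.integral_sub (c1.intervalIntegrable _ _) (c2.intervalIntegrable _ _),
    orbit_subst hφ hc hα hc0 hcα g hg]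
  have h2 : ∫ s in (0 : ℝ)..S, g (φ s x) * α (φ s x) =
      ∫ u in (0 : ℝ)..(cocyc φ α x S), g (tcf φ α u x) := by
    have := orbit_subst hφ hc hα hc0 hcα g hg x 0 S
    rw [zero_add] at this
    rw [← this]
    refine intervalIntegral.integral_congr fun s _ => ?_
    simp only [hfl.1]
  rw [h2]
  set A := cocyc φ α x S
  have e1 : (∫ u in t..(t + A), g (tcf φ α u x)) - ∫ u in (0 : ℝ)..A, g (tcf φ α u x) =
      (∫ u in A..(t + A), g (tcf φ α u x)) - ∫ u in (0 : ℝ)..t, g (tcf φ α u x) := by
    have i : ∀ a b : ℝ, IntervalIntegrable (fun u => g (tcf φ α u x)) volume a b :=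
      fun a b => hcu.intervalIntegrable _ _
    have a1 := intervalIntegral.integral_add_adjacent_intervals (i 0 t) (i t (t + A))
    have a2 := intervalIntegral.integral_add_adjacent_intervals (i 0 A) (i A (t + A))
    linarith
  rw [e1]
  have b1 : ‖∫ u in A..(t + A), g (tcf φ α u x)‖ ≤ K * |t + A - A| :=
    intervalIntegral.norm_integral_le_of_norm_le_const fun u _ => hK _
  have b2 : ‖∫ u in (0 : ℝ)..t, g (tcf φ α u x)‖ ≤ K * |t - 0| :=
    intervalIntegral.norm_integral_le_of_norm_le_const fun u _ => hK _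
  rw [add_sub_cancel_right] at b1
  rw [sub_zero] at b2
  have := norm_sub_le (∫ u in A..(t + A), g (tcf φ α u x)) (∫ u in (0 : ℝ)..t, g (tcf φ α u x))
  rw [← Real.norm_eq_abs]
  linarith

end

section measure

variable [CompactSpace M] [MeasurableSpace M] [BorelSpace M] [SecondCountableTopology M]
  {φ : ℝ → M → M} {α : M → ℝ} (hφ : IsFlow φ)
  (hc : Continuous fun q : ℝ × M => φ q.1 q.2) (hα : Continuous α)
  {c : ℝ} (hc0 : 0 < c) (hcα : ∀ x, c ≤ α x) (μ : Measure M) [IsFiniteMeasure μ]
  (hμ : Preserves φ μ)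

omit [SecondCountableTopology M] [MeasurableSpace M] [BorelSpace M] in
lemma exists_bound (g : M → ℝ) (hg : Continuous g) : ∃ K, 0 ≤ K ∧ ∀ x, |g x| ≤ K := by
  obtain ⟨K, hK⟩ := (isCompact_range hg).isBounded.exists_norm_le
  exact ⟨max K 0, le_max_right _ _, fun x => le_max_of_le_left (hK _ ⟨x, rfl⟩)⟩

include hφ hc hα hcα hc0 hμ in
lemma integral_tcf (g : M → ℝ) (hg : Continuous g) (t : ℝ) :
    ∫ x, g (tcf φ α t x) * α x ∂μ = ∫ x, g x * α x ∂μ := by
  obtain ⟨K, hK0, hK⟩ := exists_bound g hg
  obtain ⟨C, hC0, hC⟩ := exists_bound α hα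
  have hψ := tcf_continuous hc hα hc0 hcα
  have hgt : Continuous fun x => g (tcf φ α t x) :=
    hg.comp (hψ.comp (continuous_const.prodMk continuous_id))
  set f : M → ℝ := fun x => g (tcf φ α t x) * α x - g x * α x with hf
  have hfc : Continuous f := (hgt.mul hα).sub (hg.mul hα)
  have hint : ∀ h : M → ℝ, Continuous h → Integrable h μ := by
    intro h hh
    obtain ⟨B, _, hB⟩ := exists_bound h hh
    exact Integrable.of_bound hh.aestronglyMeasurable B (Eventually.of_forall hB)
  suffices h0 : ∫ x, f x ∂μ = 0 by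
    have e := integral_sub (hint (fun x => g (tcf φ α t x) * α x) (hgt.mul hα))
      (hint (fun x => g x * α x) (hg.mul hα))
    rw [hf] at h0
    simp only at h0 e
    linarith
  set I := ∫ x, f x ∂μ with hI
  -- averaging over the flow
  have key : ∀ S : ℝ, 0 < S → S * |I| ≤ 2 * K * |t| * μ.real univ := by
    intro S hS
    have e1 : ∀ s : ℝ, ∫ x, f (φ s x) ∂μ = I := by
      intro s
      have := integral_map (μ := μ) (φ := φ s) (f := f) (hμ s).1.aemeasurable
        hfc.aestronglyMeasurable
      rw [← this, (hμ s).2]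
    have e2 : ∫ s in (0 : ℝ)..S, (∫ x, f (φ s x) ∂μ) = S * I := by
      simp [e1]
    have hfb : ∀ x, |f x| ≤ 2 * (K * C) := by
      intro x
      have h1 : |g (tcf φ α t x) * α x| ≤ K * C := by
        rw [abs_mul]; exact mul_le_mul (hK _) (hC _) (abs_nonneg _) hK0
      have h2 : |g x * α x| ≤ K * C := by
        rw [abs_mul]; exact mul_le_mul (hK _) (hC _) (abs_nonneg _) hK0
      have h3 := abs_sub (g (tcf φ α t x) * α x) (g x * α x)
      simp only [hf]
      linarith
    have hprod : Integrable (Function.uncurry fun (s : ℝ) (x : M) => f (φ s x))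
        ((volume.restrict (Ioc 0 S)).prod μ) := by
      refine Integrable.of_bound (C := 2 * (K * C)) ?_ (Eventually.of_forall fun q => hfb _)
      exact (hfc.comp hc).aestronglyMeasurable
    have e3 : ∫ s in (0 : ℝ)..S, (∫ x, f (φ s x) ∂μ) =
        ∫ x, (∫ s in (0 : ℝ)..S, f (φ s x)) ∂μ := by
      simp_rw [intervalIntegral.integral_of_le hS.le]
      exact integral_integral_swap hprod
    have e4 : |∫ x, (∫ s in (0 : ℝ)..S, f (φ s x)) ∂μ| ≤ 2 * K * |t| * μ.real univ := by
      rw [← Real.norm_eq_abs]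
      refine (norm_integral_le_of_norm_le_const (C := 2 * K * |t|)
        (Eventually.of_forall fun x => ?_))
      exact orbit_diff hφ hc hα hc0 hcα g hg hK x t S
    rw [← e3, e2, abs_mul, abs_of_pos hS] at e4
    exact e4
  by_contra hne
  have hpos : 0 < |I| := abs_pos.2 hne
  have h1 := key ((2 * K * |t| * μ.real univ + 1) / |I|) (by positivity)
  rw [div_mul_cancel₀ _ hpos.ne'] at h1
  linarith

include hα hc0 hcα in
lemma integral_pos_alpha [NeZero μ] : 0 < ∫ x, α x ∂μ := by
  obtain ⟨C, _, hC⟩ := exists_bound α hα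
  have hi : Integrable α μ :=
    Integrable.of_bound hα.aestronglyMeasurable C (Eventually.of_forall hC)
  have h1 : ∫ _ : M, c ∂μ ≤ ∫ x, α x ∂μ := integral_mono (integrable_const c) hi hcα
  rw [integral_const, smul_eq_mul] at h1
  have h2 : 0 < μ.real univ := by
    rw [measureReal_def, ENNReal.toReal_pos_iff]
    exact ⟨Measure.measure_univ_pos.2 (NeZero.ne μ), measure_lt_top _ _⟩
  nlinarith [mul_pos h2 hc0]

include hα hc0 hcα in
lemma changed_prob [NeZero μ] : IsProbabilityMeasure (changedMeasure μ α) := by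
  obtain ⟨C, _, hC⟩ := exists_bound α hα
  have hi : Integrable α μ :=
    Integrable.of_bound hα.aestronglyMeasurable C (Eventually.of_forall hC)
  have hpos := integral_pos_alpha hα hc0 hcα μ
  refine ⟨?_⟩
  unfold changedMeasure
  rw [Measure.smul_apply, withDensity_apply _ MeasurableSet.univ, Measure.restrict_univ,
    ← ofReal_integral_eq_lintegral_ofReal hi
      (Eventually.of_forall fun x => hc0.le.trans (hcα x)), smul_eq_mul]
  exact ENNReal.inv_mul_cancel (by simpa using hpos) ENNReal.ofReal_ne_top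

include hφ hc hα hcα hc0 hμ in
lemma changed_preserved [HasOuterApproxClosed M] [NeZero μ] :
    Preserves (tcf φ α) (changedMeasure μ α) := by
  have hψ := tcf_continuous hc hα hc0 hcα
  intro t
  have hm : Measurable (tcf φ α t) := (cont_time hψ t).measurable
  refine ⟨hm, ?_⟩
  have := changed_prob hα hc0 hcα μ
  have : IsProbabilityMeasure ((changedMeasure μ α).map (tcf φ α t)) :=
    Measure.isProbabilityMeasure_map hm.aemeasurable
  refine ext_of_forall_integral_eq_of_IsFiniteMeasure fun g => ?_
  rw [integral_map hm.aemeasurable g.continuous.aestronglyMeasurable]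
  have e : ∀ h : M → ℝ, ∫ x, h x ∂(changedMeasure μ α) =
      ((ENNReal.ofReal (∫ x, α x ∂μ))⁻¹).toReal * ∫ x, h x * α x ∂μ := by
    intro h
    unfold changedMeasure
    rw [integral_smul_measure, smul_eq_mul]
    congr 1
    have := integral_withDensity_eq_integral_smul (μ := μ)
      (f := fun x => (α x).toNNReal) (hα.measurable.real_toNNReal) h
    have e2 : (fun x => ENNReal.ofReal (α x)) = fun x => (((α x).toNNReal : NNReal) : ENNReal) :=
      rfl
    rw [e2, this]
    refine integral_congr_ae (Eventually.of_forall fun x => ?_)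
    simp only [NNReal.smul_def, Real.coe_toNNReal _ (hc0.le.trans (hcα x)), smul_eq_mul]
    ring
  rw [e, e, integral_tcf hφ hc hα hc0 hcα μ hμ g g.continuous t]

end measure

end Pool.Agent.W5h47.Nil
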