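import Mathlib

/-!
# A Liouville number with prescribed quality of approximation
-/

set_option autoImplicit false
set_option linter.unusedSectionVars false

open Filter Topology Set

namespace Pool.Agent.W5h47.Nil

/-- The denominators. -/
noncomputable def QQ (G : ℕ → ℝ) : ℕ → ℕ
  | 0 => 1
  | k + 1 => QQ G k * ⌈2 ^ (k + 1) * G k * (3 * (QQ G k : ℝ)) ^ (k + 1)⌉₊

section

variable {G : ℕ → ℝ} (hG : ∀ k, 1 ≤ G k)

/-- The quotients of consecutive denominators. -/
noncomputable def NN (G : ℕ → ℝ) (k : ℕ) : ℕ :=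
  ⌈2 ^ (k + 1) * G k * (3 * (QQ G k : ℝ)) ^ (k + 1)⌉₊

lemma QQ_succ (k : ℕ) : QQ G (k + 1) = QQ G k * NN G k := rfl

lemma NN_ge (k : ℕ) : 2 ^ (k + 1) * G k * (3 * (QQ G k : ℝ)) ^ (k + 1) ≤ NN G k := Nat.le_ceil _

include hG in
lemma QQ_pos (k : ℕ) : 1 ≤ QQ G k := by
  induction k with
  | zero => exact le_rfl
  | succ k ih =>
    rw [QQ_succ]
    have h1 : (1 : ℝ) ≤ QQ G k := by exact_mod_cast ih
    have h2 : 0 < NN G k := by
      unfold NN
      rw [Nat.ceil_pos]
      have := hG k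
      positivity
    exact Nat.mul_pos ih h2

include hG in
lemma NN_ge_two (k : ℕ) : (2 : ℝ) ^ (k + 1) ≤ NN G k := by
  refine le_trans ?_ (NN_ge k)
  have h1 : (1 : ℝ) ≤ QQ G k := by exact_mod_cast QQ_pos hG k
  have h2 : (1 : ℝ) ≤ (3 * (QQ G k : ℝ)) ^ (k + 1) := one_le_pow₀ (by linarith)
  have h3 : (1 : ℝ) ≤ G k * (3 * (QQ G k : ℝ)) ^ (k + 1) := one_le_mul_of_one_le_of_one_le (hG k) h2
  rw [mul_assoc]
  exact le_mul_of_one_le_right (by positivity) h3

include hG in
lemma QQ_two (k m : ℕ) : (2 : ℝ) ^ m * QQ G k ≤ QQ G (k + m) := by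
  induction m with
  | zero => simp
  | succ m ih =>
    rw [← add_assoc, QQ_succ]
    push_cast
    have h2 := NN_ge_two hG (k + m)
    have h3 : (2 : ℝ) ≤ NN G (k + m) := by
      refine le_trans ?_ h2
      have : (1 : ℝ) ≤ 2 ^ (k + m) := one_le_pow₀ (by norm_num)
      rw [pow_succ]; linarith
    calc (2 : ℝ) ^ (m + 1) * QQ G k = (2 ^ m * QQ G k) * 2 := by ring
      _ ≤ QQ G (k + m) * NN G (k + m) := by
        apply mul_le_mul ih h3 (by norm_num) (by positivity)

include hG in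
lemma inv_QQ_le (k j : ℕ) : (1 : ℝ) / QQ G (j + k) ≤ 1 / QQ G k * (1 / 2) ^ j := by
  have h1 := QQ_two hG k j
  have h2 : (0 : ℝ) < QQ G k := by exact_mod_cast QQ_pos hG k
  rw [add_comm j k, one_div_pow, one_div_mul_one_div]
  rw [mul_comm] at h1
  exact one_div_le_one_div_of_le (by positivity) h1

include hG in
lemma summable_inv (k : ℕ) : Summable fun j => (1 : ℝ) / QQ G (j + k) :=
  Summable.of_nonneg_of_le (fun j => by positivity) (fun j => inv_QQ_le hG k j)
    (summable_geometric_two.mul_left _)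

include hG in
lemma tsum_inv_le (k : ℕ) : ∑' j, (1 : ℝ) / QQ G (j + k) ≤ 2 / QQ G k := by
  refine ((summable_inv hG k).tsum_le_tsum (fun j => inv_QQ_le hG k j)
    (summable_geometric_two.mul_left _)).trans ?_
  rw [tsum_mul_left, tsum_geometric_two]
  apply le_of_eq
  ring

include hG in
lemma QQ_dvd (k j : ℕ) (h : j ≤ k) : QQ G j ∣ QQ G k := by
  induction h with
  | refl => exact dvd_rfl
  | step _ ih => exact ih.trans ⟨_, QQ_succ _⟩

/-- The numerators. -/
noncomputable def PP (G : ℕ → ℝ) (k : ℕ) : ℕ := ∑ j ∈ Finset.range (k + 1), QQ G k / QQ G j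

include hG in
lemma PP_eq (k : ℕ) : (PP G k : ℝ) = QQ G k * ∑ j ∈ Finset.range (k + 1), (1 : ℝ) / QQ G j := by
  unfold PP
  push_cast
  rw [Finset.mul_sum]
  refine Finset.sum_congr rfl fun j hj => ?_
  have hj' : j ≤ k := by
    have := Finset.mem_range.1 hj
    omega
  have h0 : (QQ G j : ℝ) ≠ 0 := by
    have := QQ_pos hG j
    positivity
  rw [Nat.cast_div (QQ_dvd hG k j hj') h0]
  ring

/-- The Liouville number. -/
noncomputable def theta (G : ℕ → ℝ) : ℝ := ∑' j, (1 : ℝ) / QQ G j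

include hG in
lemma delta_eq (k : ℕ) : QQ G k * theta G - PP G k =
    QQ G k * ∑' j, (1 : ℝ) / QQ G (j + (k + 1)) := by
  have h := (summable_inv hG 0).sum_add_tsum_nat_add (k + 1)
  simp only [add_zero] at h
  unfold theta
  rw [PP_eq hG, ← h]
  ring

include hG in
lemma delta_ge (k : ℕ) : (QQ G k : ℝ) / QQ G (k + 1) ≤ QQ G k * theta G - PP G k := by
  rw [delta_eq hG, div_eq_mul_one_div]
  refine mul_le_mul_of_nonneg_left ?_ (by positivity)
  have := (summable_inv hG (k + 1)).le_tsum 0 (fun j _ => by positivity)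
  simpa using this

include hG in
lemma delta_pos (k : ℕ) : 0 < QQ G k * theta G - PP G k := by
  refine lt_of_lt_of_le ?_ (delta_ge hG k)
  have h1 := QQ_pos hG k
  have h2 := QQ_pos hG (k + 1)
  positivity

include hG in
lemma delta_le (k : ℕ) : QQ G k * theta G - PP G k ≤ 2 / NN G k := by
  rw [delta_eq hG]
  have h1 := tsum_inv_le hG (k + 1)
  have h0 : (0 : ℝ) < QQ G k := by exact_mod_cast QQ_pos hG k
  have hN : (0 : ℝ) < NN G k := lt_of_lt_of_le (by positivity) (NN_ge_two hG k)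
  refine (mul_le_mul_of_nonneg_left h1 h0.le).trans ?_
  rw [QQ_succ]
  push_cast
  apply le_of_eq
  field_simp

include hG in
lemma theta_irrational : Irrational (theta G) := by
  rintro ⟨q, hq⟩
  obtain ⟨k, hk⟩ := exists_nat_gt (q.den : ℝ)
  have h1 := delta_pos hG k
  have h2 := delta_le hG k
  have h3 := NN_ge_two hG k
  have hden : (0 : ℝ) < q.den := by exact_mod_cast q.den_pos
  have hN : (0 : ℝ) < NN G k := lt_of_lt_of_le (by positivity) h3
  have h4 : (q.den : ℝ) * (QQ G k * theta G - PP G k) =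
      ((QQ G k * q.num - q.den * PP G k : ℤ) : ℝ) := by
    rw [← hq]
    push_cast
    have : (q : ℝ) * q.den = q.num := by exact_mod_cast Rat.mul_den_eq_num q
    linear_combination (QQ G k : ℝ) * this
  have h5 : (0 : ℝ) < ((QQ G k * q.num - q.den * PP G k : ℤ) : ℝ) := by
    rw [← h4]
    positivity
  have h6 : (1 : ℝ) ≤ ((QQ G k * q.num - q.den * PP G k : ℤ) : ℝ) := by
    have : (0 : ℤ) < QQ G k * q.num - q.den * PP G k := by exact_mod_cast h5
    exact_mod_cast this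
  rw [← h4] at h6
  have h7 : (q.den : ℝ) * (QQ G k * theta G - PP G k) ≤ q.den * (2 / NN G k) :=
    mul_le_mul_of_nonneg_left h2 hden.le
  have h8 : (q.den : ℝ) * (2 / NN G k) < 1 := by
    rw [mul_div_assoc', div_lt_one hN]
    have h9 : (k : ℝ) < 2 ^ k := by exact_mod_cast Nat.lt_two_pow_self
    rw [pow_succ] at h3
    linarith
  linarith

include hG in
lemma exists_liouville : ∃ (θ : ℝ) (Q P : ℕ → ℕ), Irrational θ ∧ (∀ k, 1 ≤ Q k) ∧
    (∀ k, (P k : ℝ) ≤ 2 * Q k) ∧ (∀ k, 0 < Q k * θ - P k) ∧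
    (∀ k, (Q k * θ - P k) * G k * (3 * Q k) ^ (k + 1) * 2 ^ k ≤ 1) ∧
    (∀ k j, k < j → 1 ≤ Q j * (Q k * θ - P k)) := by
  refine ⟨theta G, QQ G, PP G, theta_irrational hG, QQ_pos hG, fun k => ?_, delta_pos hG,
    fun k => ?_, fun k j hkj => ?_⟩
  · have h1 := delta_pos hG k
    have h2 : theta G ≤ 2 := by
      have := tsum_inv_le hG 0
      simpa [theta, QQ] using this
    have h0 : (0 : ℝ) < QQ G k := by exact_mod_cast QQ_pos hG k
    nlinarith
  · have h2 := delta_le hG k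
    have h3 := NN_ge (G := G) k
    have hN : (0 : ℝ) < NN G k := lt_of_lt_of_le (by positivity) (NN_ge_two hG k)
    rw [le_div_iff₀ hN] at h2
    have h1 := delta_pos hG k
    have h4 := mul_le_mul_of_nonneg_left h3 h1.le
    have h5 : (QQ G k * theta G - PP G k) * (2 ^ (k + 1) * G k * (3 * (QQ G k : ℝ)) ^ (k + 1)) =
      2 * ((QQ G k * theta G - PP G k) * G k * (3 * QQ G k) ^ (k + 1) * 2 ^ k) := by ring
    linarith
  · have h1 := delta_ge hG k
    have h0 : (1 : ℝ) ≤ QQ G k := by exact_mod_cast QQ_pos hG k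
    have h2 : (0 : ℝ) < QQ G (k + 1) := by exact_mod_cast QQ_pos hG (k + 1)
    obtain ⟨m, rfl⟩ : ∃ m, j = k + 1 + m := ⟨j - (k + 1), by omega⟩
    have h3 := QQ_two hG (k + 1) m
    have h4 : (1 : ℝ) ≤ 2 ^ m := one_le_pow₀ (by norm_num)
    rw [div_le_iff₀ h2] at h1
    have h5 : (QQ G (k + 1) : ℝ) ≤ QQ G (k + 1 + m) :=
      le_trans (le_mul_of_one_le_left h2.le h4) h3
    have h6 := mul_le_mul_of_nonneg_left h5 (delta_pos hG k).le
    linarith [mul_comm (QQ G k * theta G - PP G k) (QQ G (k + 1 + m) : ℝ)]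

end

end Pool.Agent.W5h47.Nil
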