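import Pool.Agent.W5h47.Nil.Eigen

/-!
# Averaging a continuous function over a circle action
-/

set_option autoImplicit false
set_option linter.unusedSectionVars false

open MeasureTheory Filter Topology Set

namespace Pool.Agent.W5h47.Nil

lemma fourier_eq_ex (n : ℤ) (s : ℝ) : (fourier n (s : UnitAddCircle) : ℂ) = ex (n * s) := by
  rw [fourier_coe_apply]
  unfold ex
  congr 1
  push_cast
  ring

lemma const_of_fourier (g : ℝ → ℂ) (hg : Continuous g) (hp : Function.Periodic g 1)
    (h : ∀ n : ℤ, n ≠ 0 → ∫ s in (0 : ℝ)..1, ex (-(n * s)) * g s = 0) :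
    g 0 = ∫ s in (0 : ℝ)..1, g s := by
  have hc : Continuous (hp.lift : UnitAddCircle → ℂ) := by
    refine (QuotientAddGroup.isQuotientMap_mk (AddSubgroup.zmultiples (1 : ℝ))).continuous_iff.2 ?_
    exact hg
  set G : C(UnitAddCircle, ℂ) := ⟨hp.lift, hc⟩ with hG
  have hGc : ∀ s : ℝ, G (s : UnitAddCircle) = g s := fun s => hp.lift_coe s
  have hcoef : ∀ n : ℤ, fourierCoeff G n = ∫ s in (0 : ℝ)..1, ex (-(n * s)) * g s := by
    intro n
    rw [fourierCoeff_eq_intervalIntegral G n 0]
    simp only [one_div, inv_one, one_smul, zero_add, smul_eq_mul]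
    refine intervalIntegral.integral_congr fun s _ => ?_
    simp only [fourier_eq_ex, hGc]
    congr 2
    push_cast
    ring
  have hz : ∀ n : ℤ, n ≠ 0 → fourierCoeff G n = 0 := fun n hn => by rw [hcoef, h n hn]
  have hsum : Summable (fourierCoeff G) := summable_of_ne_finset_zero (s := {0}) (by
    intro b hb; exact hz b (by simpa using hb))
  have h1 := has_pointwise_sum_fourier_series_of_summable hsum ((0 : ℝ) : UnitAddCircle)
  have h2 := hasSum_single (f := fun i => fourierCoeff G i • (fourier i ((0 : ℝ) : UnitAddCircle) : ℂ))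
    0 (by intro b hb; rw [hz b hb, zero_smul])
  have h3 := h1.unique h2
  rw [hGc, hcoef, fourier_eq_ex] at h3
  simpa [ex_zero] using h3

section

variable {N : Type} [TopologicalSpace N] [CompactSpace N] [MeasurableSpace N] [BorelSpace N]
  [SecondCountableTopology N]

lemma exists_normBound (f : N → ℂ) (hf : Continuous f) : ∃ K, 0 ≤ K ∧ ∀ x, ‖f x‖ ≤ K := by
  obtain ⟨K, hK⟩ := (isCompact_range hf).isBounded.exists_norm_le
  exact ⟨max K 0, le_max_right _ _, fun x => le_max_of_le_left (hK _ ⟨x, rfl⟩)⟩

/-- The `n`-th Fourier component of `f` along the circle action `T`. -/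
noncomputable def comp (T : ℝ → N → N) (n : ℤ) (f : N → ℂ) (p : N) : ℂ :=
  ∫ s in (0 : ℝ)..1, ex (-(n * s)) * f (T s p)

omit [CompactSpace N] [MeasurableSpace N] [BorelSpace N] [SecondCountableTopology N] in
lemma comp_continuous {T : ℝ → N → N} (hT : Continuous fun q : ℝ × N => T q.1 q.2) (n : ℤ)
    {f : N → ℂ} (hf : Continuous f) : Continuous (comp T n f) := by
  unfold comp
  refine intervalIntegral.continuous_parametric_intervalIntegral_of_continuous
    (f := fun (p : N) (s : ℝ) => ex (-(n * s)) * f (T s p)) ?_ continuous_const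
  have h1 : Continuous fun q : N × ℝ => ex (-(n * q.2)) := continuous_ex.comp (by fun_prop)
  have h2 : Continuous fun q : N × ℝ => f (T q.2 q.1) :=
    hf.comp (hT.comp (continuous_snd.prodMk continuous_fst))
  exact h1.mul h2

lemma average {ρ : Measure N} [IsFiniteMeasure ρ] {T : ℝ → N → N}
    (hT : Continuous fun q : ℝ × N => T q.1 q.2)
    (hT0 : ∀ p, T 0 p = p) {f : N → ℂ} (hf : Continuous f)
    (hper : ∀ s p, f (T (s + 1) p) = f (T s p))
    (h : ∀ n : ℤ, n ≠ 0 → ∫ p, comp T n f p ∂ρ = 0) :
    ∫ p, f p ∂ρ = ∫ p, comp T 0 f p ∂ρ := by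
  obtain ⟨K, hK0, hK⟩ := exists_normBound f hf
  have hjc : Continuous fun q : ℝ × N => f (T q.1 q.2) := hf.comp hT
  have hswap : ∀ n : ℤ, ∫ p, comp T n f p ∂ρ =
      ∫ s in (0 : ℝ)..1, ex (-(n * s)) * ∫ p, f (T s p) ∂ρ := by
    intro n
    unfold comp
    rw [← intervalIntegral_integral_swap]
    · refine intervalIntegral.integral_congr fun s _ => ?_
      exact integral_const_mul _ _
    · have : IsFiniteMeasure ((volume : Measure ℝ).restrict (uIoc (0 : ℝ) 1)) := by
        rw [uIoc_of_le zero_le_one]; infer_instance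
      have h1 : Continuous (Function.uncurry fun (s : ℝ) (p : N) => ex (-(n * s)) * f (T s p)) := by
        have h1 : Continuous fun q : ℝ × N => ex (-(n * q.1)) := continuous_ex.comp (by fun_prop)
        exact h1.mul hjc
      refine Integrable.of_bound h1.aestronglyMeasurable K (Eventually.of_forall fun q => ?_)
      simp only [Function.uncurry, norm_mul, norm_ex, one_mul]
      exact hK _
  have hg : Continuous fun s : ℝ => ∫ p, f (T s p) ∂ρ := by
    refine continuous_of_dominated (bound := fun _ => K) ?_ ?_ ?_ ?_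
    · intro s
      exact (hjc.comp (continuous_const.prodMk continuous_id)).aestronglyMeasurable
    · intro s
      exact Eventually.of_forall fun p => hK _
    · exact integrable_const K
    · exact Eventually.of_forall fun p => hjc.comp (continuous_id.prodMk continuous_const)
  have hp : Function.Periodic (fun s : ℝ => ∫ p, f (T s p) ∂ρ) 1 := by
    intro s
    simp only [hper]
  have := const_of_fourier _ hg hp (fun n hn => by rw [← hswap, h n hn])
  simp only [hT0] at this
  rw [this, hswap 0]
  refine intervalIntegral.integral_congr fun s _ => ?_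
  simp [ex_zero]

end

end Pool.Agent.W5h47.Nil
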