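import Pool.Agent.W5h47.Nil.Haar
import Pool.Agent.W5h47.Nil.Fourier

/-!
# Unique ergodicity of irrational Heisenberg nilflows
-/

set_option autoImplicit false
set_option linter.unusedSectionVars false

open MeasureTheory Filter Topology Set
open Pool.Agent.R239.NilRet
open scoped ComplexConjugate

namespace Pool.Agent.W5h47.Nil

/-- The one-parameter subgroup `t ↦ exp(t(X + θY))` of the Heisenberg group. -/
noncomputable def X (θ t : ℝ) : Heis := Heis.mk t (θ * t) (θ * t ^ 2 / 2)

/-- The central elements. -/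
def zc (r : ℝ) : Heis := Heis.mk 0 0 r
/-- The first coordinate subgroup. -/
def xc (r : ℝ) : Heis := Heis.mk r 0 0
/-- The second coordinate subgroup. -/
def yc (r : ℝ) : Heis := Heis.mk 0 r 0

lemma X_zero (θ : ℝ) : X θ 0 = 1 := by
  apply Heis.ext <;> simp [X]

lemma X_add (θ s t : ℝ) : X θ (s + t) = X θ s * X θ t := by
  apply Heis.ext <;> simp [X] <;> ring

/-- The nilflow. -/
noncomputable def phi (θ t : ℝ) (p : NM) : NM := X θ t • p

lemma phi_isFlow (θ : ℝ) : IsFlow (phi θ) := by
  constructor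
  · intro p
    simp [phi, X_zero]
  · intro s t p
    simp [phi, X_add, mul_smul]

lemma continuous_X (θ : ℝ) : Continuous (X θ) :=
  Heis.continuous_mk continuous_id (by fun_prop) (by fun_prop)

lemma continuous_xc : Continuous xc :=
  Heis.continuous_mk continuous_id continuous_const continuous_const
lemma continuous_yc : Continuous yc :=
  Heis.continuous_mk continuous_const continuous_id continuous_const
lemma continuous_zc : Continuous zc :=
  Heis.continuous_mk continuous_const continuous_const continuous_id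

lemma continuous_act {g : ℝ → Heis} (hg : Continuous g) :
    Continuous fun q : ℝ × NM => g q.1 • q.2 :=
  (hg.comp continuous_fst).smul continuous_snd

lemma phi_continuous (θ : ℝ) : Continuous fun q : ℝ × NM => phi θ q.1 q.2 :=
  continuous_act (continuous_X θ)

lemma phi_preserves (θ : ℝ) : Preserves (phi θ) haar := fun t =>
  ⟨(continuous_const_smul (X θ t)).measurable, haar_map (X θ t)⟩

lemma zc_comm (r : ℝ) (g : Heis) : zc r * g = g * zc r := by
  apply Heis.ext <;> simp [zc] <;> ring

lemma xc_add (s t : ℝ) : xc (s + t) = xc s * xc t := by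
  apply Heis.ext <;> simp [xc]
lemma yc_add (s t : ℝ) : yc (s + t) = yc s * yc t := by
  apply Heis.ext <;> simp [yc]
lemma zc_add (s t : ℝ) : zc (s + t) = zc s * zc t := by
  apply Heis.ext <;> simp [zc]

lemma eq_zxy (g : Heis) : g = zc (g.z - g.x * g.y) * xc g.x * yc g.y := by
  apply Heis.ext <;> simp [xc, yc, zc]

lemma zc_per (s : ℝ) (p : NM) : zc (s + 1) • p = zc s • p := by
  induction p using QuotientGroup.induction_on with
  | H g =>
    have h : zc (s + 1) * g = zc s * g * Heis.mk (0 : ℤ) (0 : ℤ) (1 : ℤ) := by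
      apply Heis.ext <;> simp [zc] <;> ring
    show ((zc (s + 1) * g : Heis) : NM) = ((zc s * g : Heis) : NM)
    rw [h]
    exact QuotientGroup.mk_mul_of_mem _ (mk_mem_Gam2 0 0 1)

section

variable {f : NM → ℂ} (hz : ∀ r p, f (zc r • p) = f p)

include hz in
lemma yc_per (s : ℝ) (p : NM) : f (yc (s + 1) • p) = f (yc s • p) := by
  induction p using QuotientGroup.induction_on with
  | H g =>
    have h : yc (s + 1) * g = zc (-g.x) * (yc s * g * Heis.mk (0 : ℤ) (1 : ℤ) (0 : ℤ)) := by
      apply Heis.ext <;> simp [zc, yc] <;> ring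
    have h2 : yc (s + 1) • (g : NM) = zc (-g.x) • (yc s • (g : NM)) := by
      show ((yc (s + 1) * g : Heis) : NM) = zc (-g.x) • ((yc s * g : Heis) : NM)
      rw [h]
      show zc (-g.x) • ((yc s * g * Heis.mk (0 : ℤ) (1 : ℤ) (0 : ℤ) : Heis) : NM) = _
      congr 1
      exact QuotientGroup.mk_mul_of_mem _ (mk_mem_Gam2 0 1 0)
    rw [h2, hz]

include hz in
lemma xc_per (s : ℝ) (p : NM) : f (xc (s + 1) • p) = f (xc s • p) := by
  induction p using QuotientGroup.induction_on with
  | H g =>
    have h : xc (s + 1) * g = zc (g.y) * (xc s * g * Heis.mk (1 : ℤ) (0 : ℤ) (0 : ℤ)) := by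
      apply Heis.ext <;> simp [zc, xc] <;> ring
    have h2 : xc (s + 1) • (g : NM) = zc (g.y) • (xc s • (g : NM)) := by
      show ((xc (s + 1) * g : Heis) : NM) = zc (g.y) • ((xc s * g : Heis) : NM)
      rw [h]
      show zc (g.y) • ((xc s * g * Heis.mk (1 : ℤ) (0 : ℤ) (0 : ℤ) : Heis) : NM) = _
      congr 1
      exact QuotientGroup.mk_mul_of_mem _ (mk_mem_Gam2 1 0 0)
    rw [h2, hz]

end

section comp

variable {T : ℝ → NM → NM} {f : NM → ℂ}

lemma comp_eigen (hadd : ∀ s u p, T s (T u p) = T (s + u) p)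
    (hper : ∀ s p, f (T (s + 1) p) = f (T s p)) (n : ℤ) (u : ℝ) (p : NM) :
    comp T n f (T u p) = ex (n * u) * comp T n f p := by
  unfold comp
  have h1 : Function.Periodic (fun s : ℝ => ex (-(n * s)) * f (T s p)) 1 := by
    intro s
    simp only [hper]
    congr 1
    rw [show -((n : ℝ) * (s + 1)) = -(n * s) + ((-n : ℤ) : ℝ) by push_cast; ring, ex_add, ex_int,
      mul_one]
  have h2 : ∀ s : ℝ, ex (-(n * s)) * f (T s (T u p)) =
      ex (n * u) * (ex (-(n * (s + u))) * f (T (s + u) p)) := by
    intro s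
    rw [hadd, ← mul_assoc, ← ex_add]
    congr 2
    ring
  simp_rw [h2]
  rw [intervalIntegral.integral_const_mul,
    intervalIntegral.integral_comp_add_right (fun s => ex (-(n * s)) * f (T s p)) u]
  congr 1
  have := h1.intervalIntegral_add_eq u 0
  rw [zero_add] at this ⊢
  rw [add_comm 1 u]
  exact this

lemma comp_of_eigen {S : NM → NM} {c : ℂ} (h : ∀ s p, f (T s (S p)) = c * f (T s p)) (n : ℤ)
    (p : NM) : comp T n f (S p) = c * comp T n f p := by
  unfold comp
  rw [← intervalIntegral.integral_const_mul]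
  refine intervalIntegral.integral_congr fun s _ => ?_
  simp only [h]
  ring

end comp

lemma smul_zc (g : Heis) (r : ℝ) (p : NM) : g • zc r • p = zc r • g • p := by
  rw [← mul_smul, ← mul_smul, zc_comm]

/-- The double Fourier component of a function invariant under the centre. -/
noncomputable def dcomp (n m : ℤ) (f : NM → ℂ) : NM → ℂ :=
  comp (fun s p => xc s • p) n (comp (fun s p => yc s • p) m f)

section dcomp

variable {f : NM → ℂ} (hf : Continuous f) (hz : ∀ r p, f (zc r • p) = f p)

include hz in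
lemma comp_y_zc (m : ℤ) (r : ℝ) (p : NM) :
    comp (fun s p => yc s • p) m f (zc r • p) = comp (fun s p => yc s • p) m f p := by
  have := comp_of_eigen (T := fun s p => yc s • p) (f := f) (S := fun p => zc r • p) (c := 1)
    (fun s p => by simp only [smul_zc, hz, one_mul]) m p
  simpa using this

include hz in
lemma comp_y_yc (m : ℤ) (r : ℝ) (p : NM) :
    comp (fun s p => yc s • p) m f (yc r • p) =
      ex (m * r) * comp (fun s p => yc s • p) m f p :=
  comp_eigen (T := fun s p => yc s • p) (f := f)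
    (fun s u p => by rw [← mul_smul, yc_add]) (yc_per hz) m r p

include hz in
lemma dcomp_zc (n m : ℤ) (r : ℝ) (p : NM) : dcomp n m f (zc r • p) = dcomp n m f p := by
  have := comp_of_eigen (T := fun s p => xc s • p) (f := comp (fun s p => yc s • p) m f)
    (S := fun p => zc r • p) (c := 1)
    (fun s p => by simp only [smul_zc, comp_y_zc hz, one_mul]) n p
  rw [one_mul] at this
  exact this

include hz in
lemma dcomp_xc (n m : ℤ) (r : ℝ) (p : NM) :
    dcomp n m f (xc r • p) = ex (n * r) * dcomp n m f p :=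
  comp_eigen (T := fun s p => xc s • p) (f := comp (fun s p => yc s • p) m f)
    (fun s u p => by rw [← mul_smul, xc_add]) (xc_per (comp_y_zc hz m)) n r p

include hz in
lemma dcomp_yc (n m : ℤ) (r : ℝ) (p : NM) :
    dcomp n m f (yc r • p) = ex (m * r) * dcomp n m f p := by
  refine comp_of_eigen (T := fun s p => xc s • p) (f := comp (fun s p => yc s • p) m f)
    (S := fun p => yc r • p) (c := ex (m * r)) (fun s p => ?_) n p
  have h : xc s • yc r • p = zc (s * r) • yc r • xc s • p := by
    rw [← mul_smul, ← mul_smul, ← mul_smul]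
    congr 1
    apply Heis.ext <;> simp [zc, yc, xc]
  simp only [h, comp_y_zc hz, comp_y_yc hz]

include hz in
lemma dcomp_X (n m : ℤ) (θ t : ℝ) (p : NM) :
    dcomp n m f (phi θ t p) = ex ((n + θ * m) * t) * dcomp n m f p := by
  have h : phi θ t p = zc (-(θ * t ^ 2 / 2)) • xc t • yc (θ * t) • p := by
    unfold phi
    rw [← mul_smul, ← mul_smul]
    congr 1
    apply Heis.ext <;> simp [zc, yc, xc, X]
    ring
  rw [h, dcomp_zc hz, dcomp_xc hz, dcomp_yc hz, ← mul_assoc, ← ex_add]
  congr 2
  ring

include hf in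
lemma dcomp_continuous (n m : ℤ) : Continuous (dcomp n m f) :=
  comp_continuous (continuous_act continuous_xc) n
    (comp_continuous (continuous_act continuous_yc) m hf)

include hz in
lemma dcomp_const (p q : NM) : dcomp 0 0 f p = dcomp 0 0 f q := by
  have h : ∀ p : NM, dcomp 0 0 f p = dcomp 0 0 f ((1 : Heis) : NM) := by
    intro p
    induction p using QuotientGroup.induction_on with
    | H g =>
      have h1 : (g : NM) = zc (g.z - g.x * g.y) • xc g.x • yc g.y • ((1 : Heis) : NM) := by
        rw [← mul_smul, ← mul_smul]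
        conv_lhs => rw [eq_zxy g]
        show ((_ : Heis) : NM) = ((_ : Heis) : NM)
        congr 1
        simp [mul_assoc]
      rw [h1, dcomp_zc hz, dcomp_xc hz, dcomp_yc hz]
      simp [ex_zero]
  rw [h p, h q]

lemma integral_eigen {ρ : Measure NM} {g : NM → ℂ} {θ l : ℝ} (hg : Continuous g)
    (hρ : Preserves (phi θ) ρ) (hl : l ≠ 0) (h : ∀ t p, g (phi θ t p) = ex (l * t) * g p) :
    ∫ p, g p ∂ρ = 0 := by
  have h1 : ∫ p, g p ∂ρ = ∫ p, g (phi θ (1 / (2 * l)) p) ∂ρ := by
    conv_lhs => rw [← (hρ (1 / (2 * l))).2]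
    exact integral_map (hρ _).1.aemeasurable hg.aestronglyMeasurable
  simp only [h] at h1
  rw [show l * (1 / (2 * l)) = 1 / 2 by field_simp, ex_half] at h1
  simp only [neg_mul, one_mul, integral_neg] at h1
  have h2 : (2 : ℂ) * ∫ p, g p ∂ρ = 0 := by linear_combination h1
  simpa using h2

include hf hz in
/-- Every invariant probability measure of an irrational nilflow gives the same integral to a
function which is invariant under the centre. -/
lemma integral_center {ρ : Measure NM} [IsProbabilityMeasure ρ] {θ : ℝ} (hθ : Irrational θ)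
    (hρ : Preserves (phi θ) ρ) : ∫ p, f p ∂ρ = dcomp 0 0 f ((1 : Heis) : NM) := by
  have hne : ∀ n m : ℤ, (n ≠ 0 ∨ m ≠ 0) → (n : ℝ) + θ * m ≠ 0 := by
    intro n m hnm h0
    by_cases hm : m = 0
    · subst hm
      simp at h0
      exact (hnm.resolve_right (by simp)) h0
    · have hm' : (m : ℝ) ≠ 0 := by exact_mod_cast hm
      apply hθ
      refine ⟨-(n : ℚ) / m, ?_⟩
      push_cast
      field_simp
      linarith
  have hv : ∀ n m : ℤ, (n ≠ 0 ∨ m ≠ 0) → ∫ p, dcomp n m f p ∂ρ = 0 := fun n m hnm =>
    integral_eigen (dcomp_continuous hf n m) hρ (hne n m hnm) (fun t p => dcomp_X hz n m θ t p)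
  have hx0 : ∀ p : NM, xc 0 • p = p := fun p => by
    rw [show xc 0 = 1 from rfl, one_smul]
  have hy0 : ∀ p : NM, yc 0 • p = p := fun p => by
    rw [show yc 0 = 1 from rfl, one_smul]
  have h1 : ∀ m : ℤ, ∫ p, comp (fun s p => yc s • p) m f p ∂ρ = ∫ p, dcomp 0 m f p ∂ρ := fun m =>
    average (continuous_act continuous_xc) hx0
      (comp_continuous (continuous_act continuous_yc) m hf) (xc_per (comp_y_zc hz m))
      (fun n hn => hv n m (Or.inl hn))
  have h2 : ∫ p, f p ∂ρ = ∫ p, comp (fun s p => yc s • p) 0 f p ∂ρ :=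
    average (continuous_act continuous_yc) hy0 hf (yc_per hz)
      (fun m hm => by rw [h1 m, hv 0 m (Or.inr hm)])
  rw [h2, h1 0]
  have h3 : ∀ p, dcomp 0 0 f p = dcomp 0 0 f ((1 : Heis) : NM) := fun p => dcomp_const hz _ _
  simp_rw [h3]
  simp

end dcomp

section vertical

variable {f : NM → ℂ} (hf : Continuous f) {k : ℤ} (hk : k ≠ 0)
  (hz : ∀ r p, f (zc r • p) = ex (k * r) * f p)

include hf in
lemma unif_yc {ε : ℝ} (hε : 0 < ε) : ∃ δ > 0, ∀ s : ℝ, |s| < δ → ∀ p : NM,
    ‖f p - f (yc s • p)‖ ≤ ε := by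
  have hc : Continuous fun q : ℝ × NM => f (yc q.1 • q.2) :=
    hf.comp (continuous_act continuous_yc)
  set F : C(ℝ, C(NM, ℂ)) := ContinuousMap.curry ⟨fun q : ℝ × NM => f (yc q.1 • q.2), hc⟩ with hF
  have hFv : ∀ s p, F s p = f (yc s • p) := fun s p => rfl
  have h0 := F.continuous.tendsto 0
  rw [Metric.tendsto_nhds_nhds] at h0
  obtain ⟨δ, hδ, h⟩ := h0 ε hε
  refine ⟨δ, hδ, fun s hs p => ?_⟩
  have h1 := h (x := s) (by simpa using hs)
  have h2 := ContinuousMap.dist_apply_le_dist (f := F 0) (g := F s) p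
  rw [dist_comm] at h1
  rw [dist_eq_norm, hFv, hFv, show yc 0 = 1 from rfl, one_smul] at h2
  exact h2.trans h1.le

/-- The correlation of a function with its translate along the nilflow. -/
noncomputable def corr (θ : ℝ) (f : NM → ℂ) (h : ℝ) : ℂ := ∫ p, f (phi θ h p) * conj (f p) ∂haar

include hf hk hz in
lemma corr_small (θ : ℝ) {ε : ℝ} (hε : 0 < ε) : ∃ L > 0, ∀ h : ℝ, L ≤ |h| → ‖corr θ f h‖ ≤ ε := by
  obtain ⟨K, hK0, hK⟩ := exists_normBound f hf
  obtain ⟨δ, hδ, hd⟩ := unif_yc hf (ε := ε / (K + 1)) (by positivity)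
  have hk' : (0 : ℝ) < |(k : ℝ)| := by positivity
  refine ⟨1 / (δ * |(k : ℝ)|), by positivity, fun h hh => ?_⟩
  have hh0 : 0 < |h| := lt_of_lt_of_le (by positivity) hh
  have hh1 : h ≠ 0 := by simpa using hh0.ne'
  have hkr : (k : ℝ) ≠ 0 := by exact_mod_cast hk
  set s : ℝ := 1 / (2 * k * h) with hs
  have hsd : |s| < δ := by
    rw [hs, abs_div, abs_mul, abs_mul, abs_one, abs_two, div_lt_iff₀ (by positivity)]
    rw [div_le_iff₀ (by positivity)] at hh
    nlinarith [mul_pos hk' hh0]
  have hc1 : Continuous fun p : NM => f (phi θ h p) :=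
    hf.comp (continuous_const_smul (X θ h))
  have hc2 : Continuous fun p : NM => f (yc s • p) := hf.comp (continuous_const_smul (yc s))
  have hc3 : Continuous fun p : NM => f (yc s • phi θ h p) :=
    hc2.comp (continuous_const_smul (X θ h))
  have hconj : Continuous fun z : ℂ => conj z := Complex.continuous_conj
  -- shifting by `yc s`
  have h1 : corr θ f h = ∫ p, f (phi θ h (yc s • p)) * conj (f (yc s • p)) ∂haar := by
    unfold corr
    conv_lhs => rw [← haar_map (yc s)]
    exact integral_map (continuous_const_smul (yc s)).measurable.aemeasurable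
      (hc1.mul (hconj.comp hf)).aestronglyMeasurable
  have h2 : ∀ p : NM, f (phi θ h (yc s • p)) = -f (yc s • phi θ h p) := by
    intro p
    have : phi θ h (yc s • p) = zc (h * s) • yc s • phi θ h p := by
      unfold phi
      rw [← mul_smul, ← mul_smul, ← mul_smul]
      congr 1
      apply Heis.ext <;> simp [zc, yc, X]
      · ring
      · ring
    rw [this, hz, show (k : ℝ) * (h * s) = 1 / 2 by rw [hs]; field_simp, ex_half]
    ring
  have h3 : corr θ f h = -∫ p, f (yc s • phi θ h p) * conj (f (yc s • p)) ∂haar := by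
    rw [h1, ← integral_neg]
    congr 1
    funext p
    rw [h2]
    ring
  have hi1 : Integrable (fun p : NM => f (phi θ h p) * conj (f p)) haar :=
    Integrable.of_bound (hc1.mul (hconj.comp hf)).aestronglyMeasurable (K * K)
      (Eventually.of_forall fun p => by
        rw [norm_mul, RCLike.norm_conj]
        exact mul_le_mul (hK _) (hK _) (norm_nonneg _) hK0)
  have hi2 : Integrable (fun p : NM => f (yc s • phi θ h p) * conj (f (yc s • p))) haar :=
    Integrable.of_bound (hc3.mul (hconj.comp hc2)).aestronglyMeasurable (K * K)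
      (Eventually.of_forall fun p => by
        rw [norm_mul, RCLike.norm_conj]
        exact mul_le_mul (hK _) (hK _) (norm_nonneg _) hK0)
  have h4 : 2 * corr θ f h = ∫ p, (f (phi θ h p) * conj (f p) -
      f (yc s • phi θ h p) * conj (f (yc s • p))) ∂haar := by
    rw [integral_sub hi1 hi2, two_mul]
    conv_lhs => rw [show corr θ f h + corr θ f h = corr θ f h - (-corr θ f h) by ring]
    congr 1
    rw [h3]
    ring
  have h5 : ‖2 * corr θ f h‖ ≤ 2 * ε := by
    rw [h4]
    refine (norm_integral_le_of_norm_le_const (C := 2 * ε) (Eventually.of_forall fun p => ?_)).trans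
      (by simp)
    have e : f (phi θ h p) * conj (f p) - f (yc s • phi θ h p) * conj (f (yc s • p)) =
        (f (phi θ h p) - f (yc s • phi θ h p)) * conj (f p) +
          f (yc s • phi θ h p) * conj (f p - f (yc s • p)) := by
      rw [map_sub]; ring
    rw [e]
    refine (norm_add_le _ _).trans ?_
    rw [norm_mul, norm_mul, RCLike.norm_conj, RCLike.norm_conj]
    have b1 : ‖f (phi θ h p) - f (yc s • phi θ h p)‖ * ‖f p‖ ≤ ε / (K + 1) * K :=
      mul_le_mul (hd s hsd _) (hK _) (norm_nonneg _) (by positivity)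
    have b2 : ‖f (yc s • phi θ h p)‖ * ‖f p - f (yc s • p)‖ ≤ K * (ε / (K + 1)) :=
      mul_le_mul (hK _) (hd s hsd _) (norm_nonneg _) hK0
    have b3 : ε / (K + 1) * K ≤ ε := by
      rw [div_mul_eq_mul_div, div_le_iff₀ (by positivity)]
      nlinarith
    linarith [mul_comm K (ε / (K + 1))]
  rw [norm_mul, Complex.norm_ofNat] at h5
  linarith

lemma sq_integral_le {ρ : Measure NM} [IsProbabilityMeasure ρ] {u : NM → ℝ} (hu : Continuous u) :
    (∫ p, u p ∂ρ) ^ 2 ≤ ∫ p, u p ^ 2 ∂ρ := by
  obtain ⟨K, hK⟩ := (isCompact_range hu).isBounded.exists_norm_le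
  have hi : Integrable u ρ := Integrable.of_bound hu.aestronglyMeasurable K
    (Eventually.of_forall fun x => hK _ ⟨x, rfl⟩)
  obtain ⟨K2, hK2⟩ := (isCompact_range (hu.pow 2)).isBounded.exists_norm_le
  have hi2 : Integrable (fun p => u p ^ 2) ρ :=
    Integrable.of_bound (hu.pow 2).aestronglyMeasurable K2
    (Eventually.of_forall fun x => hK2 _ ⟨x, rfl⟩)
  set c := ∫ p, u p ∂ρ with hc
  have h0 : 0 ≤ ∫ p, (u p - c) ^ 2 ∂ρ := integral_nonneg fun p => sq_nonneg _
  have e : ∀ p, (u p - c) ^ 2 = u p ^ 2 - 2 * c * u p + c ^ 2 := fun p => by ring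
  simp_rw [e] at h0
  have e1 : ∫ p, (u p ^ 2 - 2 * c * u p + c ^ 2) ∂ρ =
      ∫ p, (u p ^ 2 - 2 * c * u p) ∂ρ + ∫ _, c ^ 2 ∂ρ :=
    integral_add (hi2.sub (hi.const_mul _)) (integrable_const _)
  have e2 : ∫ p, (u p ^ 2 - 2 * c * u p) ∂ρ = ∫ p, u p ^ 2 ∂ρ - ∫ p, 2 * c * u p ∂ρ :=
    integral_sub hi2 (hi.const_mul _)
  rw [e1, e2, integral_const_mul, ← hc] at h0
  simp at h0
  nlinarith

include hf hk hz in
lemma integral_vertical {ρ : Measure NM} [IsProbabilityMeasure ρ] {θ : ℝ} (hθ : Irrational θ)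
    (hρ : Preserves (phi θ) ρ) : ∫ p, f p ∂ρ = 0 := by
  obtain ⟨K, hK0, hK⟩ := exists_normBound f hf
  have hconj : Continuous fun z : ℂ => conj z := Complex.continuous_conj
  have hcont : ∀ t, Continuous fun p : NM => f (phi θ t p) := fun t =>
    hf.comp (continuous_const_smul (X θ t))
  -- two-point correlations are the same for `ρ` and for the Haar measure
  have hcorr : ∀ a b : ℝ, ∫ p, f (phi θ a p) * conj (f (phi θ b p)) ∂ρ = corr θ f (a - b) := by
    intro a b
    have hcc : Continuous fun p : NM => f (phi θ a p) * conj (f (phi θ b p)) :=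
      (hcont a).mul (hconj.comp (hcont b))
    have hinv : ∀ r p, (fun p : NM => f (phi θ a p) * conj (f (phi θ b p))) (zc r • p) =
        (fun p : NM => f (phi θ a p) * conj (f (phi θ b p))) p := by
      intro r p
      simp only [phi, smul_zc, hz, map_mul]
      have : ex (k * r) * conj (ex (k * r)) = 1 := by
        rw [Complex.mul_conj, Complex.normSq_eq_norm_sq, norm_ex]
        simp
      linear_combination (f (X θ a • p) * conj (f (X θ b • p))) * this
    rw [integral_center hcc hinv hθ hρ, ← integral_center hcc hinv hθ (phi_preserves θ)]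
    unfold corr
    conv_rhs => rw [← (phi_preserves θ b).2]
    have him := integral_map (μ := haar) (φ := phi θ b)
      (f := fun p => f (phi θ (a - b) p) * conj (f p)) (phi_preserves θ b).1.aemeasurable
      ((hcont _).mul (hconj.comp hf)).aestronglyMeasurable
    rw [him]
    congr 1
    funext p
    rw [← (phi_isFlow θ).2, sub_add_cancel]
  have hshift : ∀ t, ∫ p, f (phi θ t p) ∂ρ = ∫ p, f p ∂ρ := by
    intro t
    conv_rhs => rw [← (hρ t).2]
    exact (integral_map (hρ t).1.aemeasurable hf.aestronglyMeasurable).symm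
  have hint : ∀ t, Integrable (fun p : NM => f (phi θ t p)) ρ := fun t =>
    Integrable.of_bound (hcont t).aestronglyMeasurable K (Eventually.of_forall fun p => hK _)
  -- the key estimate
  have key : ∀ ε : ℝ, 0 < ε → ∀ N : ℕ, 0 < N → ‖∫ p, f p ∂ρ‖ ^ 2 ≤ K ^ 2 / N + ε := by
    intro ε hε N hN
    obtain ⟨L, hL, hLc⟩ := corr_small hf hk hz θ hε
    set S : NM → ℂ := fun p => ∑ i ∈ Finset.range N, f (phi θ (i * L) p) with hS
    have hSc : Continuous S := continuous_finsetSum _ fun i _ => hcont _
    have h1 : ∫ p, S p ∂ρ = N * ∫ p, f p ∂ρ := by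
      rw [hS, integral_finsetSum _ fun i _ => hint _]
      simp [hshift]
    have h2 : ‖∫ p, S p ∂ρ‖ ^ 2 ≤ ∫ p, ‖S p‖ ^ 2 ∂ρ := by
      refine le_trans ?_ (sq_integral_le hSc.norm)
      exact pow_le_pow_left₀ (norm_nonneg _) (norm_integral_le_integral_norm _) 2
    have h3 : ((∫ p, ‖S p‖ ^ 2 ∂ρ : ℝ) : ℂ) = ∑ i ∈ Finset.range N, ∑ j ∈ Finset.range N,
        corr θ f (i * L - j * L) := by
      rw [← integral_complex_ofReal]
      have e : ∀ p, ((‖S p‖ ^ 2 : ℝ) : ℂ) = ∑ i ∈ Finset.range N, ∑ j ∈ Finset.range N,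
          f (phi θ (i * L) p) * conj (f (phi θ (j * L) p)) := by
        intro p
        rw [← Complex.normSq_eq_norm_sq, ← Complex.mul_conj, hS]
        simp only [map_sum]
        rw [Finset.sum_mul_sum]
      have hii : ∀ i j : ℕ, Integrable
          (fun p : NM => f (phi θ (i * L) p) * conj (f (phi θ (j * L) p))) ρ := fun i j =>
        Integrable.of_bound ((hcont _).mul (hconj.comp (hcont _))).aestronglyMeasurable (K * K)
          (Eventually.of_forall fun p => by
            rw [norm_mul, RCLike.norm_conj]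
            exact mul_le_mul (hK _) (hK _) (norm_nonneg _) hK0)
      simp_rw [e]
      rw [integral_finsetSum _ fun i _ => integrable_finsetSum _ fun j _ => hii i j]
      refine Finset.sum_congr rfl fun i _ => ?_
      rw [integral_finsetSum _ fun j _ => hii i j]
      exact Finset.sum_congr rfl fun j _ => hcorr _ _
    have h4 : ∀ i j : ℕ, ‖corr θ f (i * L - j * L)‖ ≤ (if i = j then K ^ 2 else 0) + ε := by
      intro i j
      by_cases hij : i = j
      · subst hij
        rw [if_pos rfl, sub_self]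
        have : ‖corr θ f 0‖ ≤ K * K := by
          unfold corr
          refine (norm_integral_le_of_norm_le_const (C := K * K)
            (Eventually.of_forall fun p => ?_)).trans (by simp)
          rw [norm_mul, RCLike.norm_conj]
          exact mul_le_mul (hK _) (hK _) (norm_nonneg _) hK0
        nlinarith
      · rw [if_neg hij, zero_add]
        apply hLc
        rw [← sub_mul, abs_mul, abs_of_pos hL]
        have : (1 : ℝ) ≤ |(i : ℝ) - j| := by
          have h : (1 : ℤ) ≤ |(i : ℤ) - j| := by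
            apply Int.one_le_abs
            omega
          exact_mod_cast h
        nlinarith
    have h5 : ∫ p, ‖S p‖ ^ 2 ∂ρ ≤ N * K ^ 2 + N ^ 2 * ε := by
      have a1 : ∫ p, ‖S p‖ ^ 2 ∂ρ ≤ ‖((∫ p, ‖S p‖ ^ 2 ∂ρ : ℝ) : ℂ)‖ := by
        rw [Complex.norm_real]
        exact le_abs_self _
      refine a1.trans ?_
      rw [h3]
      refine (norm_sum_le _ _).trans ?_
      refine (Finset.sum_le_sum fun i _ => norm_sum_le _ _).trans ?_
      refine (Finset.sum_le_sum fun i _ => Finset.sum_le_sum fun j _ => h4 i j).trans ?_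
      simp only [Finset.sum_add_distrib, Finset.sum_const, Finset.card_range, nsmul_eq_mul,
        Finset.sum_ite_eq, Finset.mem_range]
      have a2 : ∑ x ∈ Finset.range N, (if x < N then K ^ 2 else 0) = N * K ^ 2 := by
        rw [Finset.sum_congr rfl (g := fun _ => K ^ 2)
          (fun x hx => if_pos (Finset.mem_range.1 hx))]
        simp
      rw [a2]
      nlinarith
    rw [h1, norm_mul, mul_pow] at h2
    simp only [Complex.norm_natCast] at h2
    have hN' : (0 : ℝ) < N := by exact_mod_cast hN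
    have h6 := h2.trans h5
    rw [show K ^ 2 / N + ε = (N * K ^ 2 + N ^ 2 * ε) / N ^ 2 by field_simp,
      le_div_iff₀ (by positivity)]
    linarith
  have h7 : ‖∫ p, f p ∂ρ‖ ^ 2 ≤ 0 := by
    refine le_of_forall_pos_le_add fun ε hε => ?_
    obtain ⟨N, hN⟩ := exists_nat_gt (K ^ 2 / (ε / 2))
    have hN0 : 0 < N := by
      have : (0 : ℝ) < N := lt_of_le_of_lt (by positivity) hN
      exact_mod_cast this
    have := key (ε / 2) (by positivity) N hN0
    have h8 : K ^ 2 / N ≤ ε / 2 := by
      have hN' : (0 : ℝ) < N := by exact_mod_cast hN0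
      rw [div_lt_iff₀ (by positivity)] at hN
      rw [div_le_iff₀ hN']
      linarith
    linarith
  have h9 : ‖∫ p, f p ∂ρ‖ = 0 := by nlinarith [norm_nonneg (∫ p, f p ∂ρ)]
  simpa using h9

end vertical

/-- Two invariant probability measures of an irrational Heisenberg nilflow agree. -/
lemma integral_eq {ρ : Measure NM} [IsProbabilityMeasure ρ] {θ : ℝ} (hθ : Irrational θ)
    (hρ : Preserves (phi θ) ρ) {f : NM → ℂ} (hf : Continuous f) :
    ∫ p, f p ∂ρ = ∫ p, f p ∂haar := by
  have hz0 : ∀ p : NM, zc 0 • p = p := fun p => by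
    rw [show zc 0 = 1 from rfl, one_smul]
  have hadd : ∀ s u (p : NM), zc s • zc u • p = zc (s + u) • p := fun s u p => by
    rw [← mul_smul, zc_add]
  have hper : ∀ s (p : NM), f (zc (s + 1) • p) = f (zc s • p) := fun s p => by rw [zc_per]
  have heig := fun (n : ℤ) => comp_eigen (T := fun s p => zc s • p) (f := f) hadd hper n
  have hcomp := fun (n : ℤ) => comp_continuous (T := fun s (p : NM) => zc s • p)
    (continuous_act continuous_zc) n hf
  have h1 : ∀ ρ : Measure NM, IsProbabilityMeasure ρ → Preserves (phi θ) ρ →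
      ∫ p, f p ∂ρ = dcomp 0 0 (comp (fun s p => zc s • p) 0 f) ((1 : Heis) : NM) := by
    intro ρ hρ1 hρ2
    rw [average (T := fun s (p : NM) => zc s • p) (continuous_act continuous_zc) hz0 hf hper
      (fun n hn => integral_vertical (hcomp n) hn (fun r p => heig n r p) hθ hρ2)]
    exact integral_center (hcomp 0) (fun r p => by simpa [ex_zero] using heig 0 r p) hθ hρ2
  rw [h1 ρ inferInstance hρ, h1 haar inferInstance (phi_preserves θ)]

/-- Irrational Heisenberg nilflows are uniquely ergodic. -/
theorem uniquelyErgodic {θ : ℝ} (hθ : Irrational θ) : UniquelyErgodic (phi θ) haar := by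
  refine ⟨⟨inferInstance, phi_preserves θ⟩, fun ρ hρ1 hρ2 => ?_⟩
  refine ext_of_forall_integral_eq_of_IsFiniteMeasure fun g => ?_
  have := integral_eq hθ hρ2 (f := fun p => ((g p : ℝ) : ℂ))
    (Complex.continuous_ofReal.comp g.continuous)
  rw [integral_complex_ofReal, integral_complex_ofReal] at this
  exact_mod_cast this

end Pool.Agent.W5h47.Nil
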