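import Pool.Agent.W5h47.Nil.Circ
import Pool.Agent.W5h47.Nil.Liou
import Pool.Agent.W5h47.Nil.UE
import Pool.Agent.W5h47.Nil.Flow

/-!
# The time-change
-/

set_option autoImplicit false
set_option linter.unusedSectionVars false

open MeasureTheory Filter Topology Set
open Pool.Agent.R239.NilRet
open scoped ContDiff Manifold ENNReal

namespace Pool.Agent.W5h47.Nil

/-- The steepness of the `k`-th function. -/
noncomputable def Mk (k : ℕ) : ℝ :=
  (exists_M (ε := (2⁻¹ : ℝ≥0∞) ^ (k + 2)) (by simp [pos_iff_ne_zero])).choose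

lemma Mk_pos (k : ℕ) : 0 < Mk k :=
  (exists_M (ε := (2⁻¹ : ℝ≥0∞) ^ (k + 2)) (by simp [pos_iff_ne_zero])).choose_spec.1

lemma Mk_vol (k : ℕ) :
    volume {w : UnitAddCircle | |cc w| < 1 / Mk k} ≤ (2⁻¹ : ℝ≥0∞) ^ (k + 2) :=
  (exists_M (ε := (2⁻¹ : ℝ≥0∞) ^ (k + 2)) (by simp [pos_iff_ne_zero])).choose_spec.2

/-- The height of the `k`-th function. -/
noncomputable def Ak (k : ℕ) : ℝ := 4 ^ k

/-- The bound on the derivatives of the `k`-th function. -/
noncomputable def Bk (k : ℕ) : ℝ := (exists_deriv_bound (Ak k) (Mk k) (k + 1)).choose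

lemma Bk_ge (k : ℕ) : 1 ≤ Bk k := (exists_deriv_bound (Ak k) (Mk k) (k + 1)).choose_spec.1

lemma Bk_bound (k : ℕ) : ∀ n ≤ k + 1, ∀ x, |iteratedDeriv n (U (Ak k) (Mk k)) x| ≤ Bk k :=
  (exists_deriv_bound (Ak k) (Mk k) (k + 1)).choose_spec.2

/-- The data of the construction. -/
structure Data where
  θ : ℝ
  Q : ℕ → ℕ
  P : ℕ → ℕ
  irr : Irrational θ
  Q1 : ∀ k, 1 ≤ Q k
  P2 : ∀ k, (P k : ℝ) ≤ 2 * Q k
  pos : ∀ k, 0 < Q k * θ - P k
  small : ∀ k, (Q k * θ - P k) * Bk k * (3 * Q k) ^ (k + 1) * 2 ^ k ≤ 1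
  sep : ∀ k j, k < j → 1 ≤ Q j * (Q k * θ - P k)

lemma exists_data : Nonempty Data := by
  obtain ⟨θ, Q, P, h1, h2, h3, h4, h5, h6⟩ := exists_liouville Bk_ge
  exact ⟨⟨θ, Q, P, h1, h2, h3, h4, h5, h6⟩⟩

lemma coe_eq_of_int {a b : ℝ} (n : ℤ) (h : b = a + n) :
    (a : UnitAddCircle) = (b : UnitAddCircle) := by
  have h1 : ((n : ℝ) : UnitAddCircle) = 0 := by
    rw [AddCircle.coe_eq_zero_iff]
    exact ⟨n, by simp⟩
  rw [h]
  have h2 : ((a + n : ℝ) : UnitAddCircle) = (a : UnitAddCircle) + ((n : ℝ) : UnitAddCircle) := rfl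
  rw [h2, h1, add_zero]

lemma leftRel_spec {a b : Heis} (h : (QuotientGroup.leftRel Gam2) a b) :
    ∃ p q : ℤ, b.x = a.x + p ∧ b.y = a.y + q := by
  rw [QuotientGroup.leftRel_apply] at h
  obtain ⟨⟨p, hp⟩, ⟨q, hq⟩, -⟩ := h
  simp only [Heis.mul_x, Heis.inv_x, Heis.mul_y, Heis.inv_y] at hp hq
  exact ⟨p, q, by linarith, by linarith⟩

namespace Data

variable (D : Data)

/-- The size of the `k`-th resonance. -/
noncomputable def δ (k : ℕ) : ℝ := D.Q k * D.θ - D.P k

lemma δ_pos (k : ℕ) : 0 < D.δ k := D.pos k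

lemma Q_one (k : ℕ) : (1 : ℝ) ≤ D.Q k := by exact_mod_cast D.Q1 k

/-- The `k`-th resonant coordinate. -/
noncomputable def w (k : ℕ) : NM → UnitAddCircle :=
  Quotient.lift (fun g : Heis => ((D.Q k * g.y - D.P k * g.x : ℝ) : UnitAddCircle)) (by
    intro a b hab
    obtain ⟨p, q, hp, hq⟩ := leftRel_spec hab
    refine coe_eq_of_int (D.Q k * q - D.P k * p : ℤ) ?_
    rw [hp, hq]
    push_cast
    ring)

lemma w_mk (k : ℕ) (g : Heis) :
    D.w k (g : NM) = ((D.Q k * g.y - D.P k * g.x : ℝ) : UnitAddCircle) := rfl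

lemma w_smul (k : ℕ) (h : Heis) (p : NM) :
    D.w k (h • p) = D.w k p + ((D.Q k * h.y - D.P k * h.x : ℝ) : UnitAddCircle) := by
  induction p using QuotientGroup.induction_on with
  | H g =>
    show D.w k ((h * g : Heis) : NM) = D.w k (g : NM) + _
    rw [w_mk, w_mk, ← AddCircle.coe_add]
    congr 1
    simp only [Heis.mul_x, Heis.mul_y]
    ring

lemma w_phi (k : ℕ) (t : ℝ) (p : NM) :
    D.w k (phi D.θ t p) = D.w k p + ((D.δ k * t : ℝ) : UnitAddCircle) := by
  unfold phi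
  rw [w_smul]
  congr 2
  simp only [X, Heis.x_mk, Heis.y_mk, δ]
  ring

lemma w_continuous (k : ℕ) : Continuous (D.w k) := by
  refine (QuotientGroup.isQuotientMap_mk (N := Gam2)).continuous_iff.2 ?_
  have : Continuous fun g : Heis => (D.Q k * g.y - D.P k * g.x : ℝ) :=
    (continuous_const.mul Heis.continuous_y).sub (continuous_const.mul Heis.continuous_x)
  exact (AddCircle.continuous_mk' 1).comp this

lemma w_map (k : ℕ) : haar.map (D.w k) = volume := by
  have hm : Measurable (D.w k) := (D.w_continuous k).measurable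
  have : IsProbabilityMeasure (haar.map (D.w k)) :=
    Measure.isProbabilityMeasure_map hm.aemeasurable
  have : IsProbabilityMeasure (volume : Measure UnitAddCircle) := ⟨UnitAddCircle.measure_univ⟩
  have : (haar.map (D.w k)).IsAddLeftInvariant := by
    refine ⟨fun a => ?_⟩
    induction a using QuotientAddGroup.induction_on with
    | H s =>
      have hQ : (D.Q k : ℝ) ≠ 0 := by have := D.Q_one k; positivity
      have h1 : (fun v : UnitAddCircle => ((s : ℝ) : UnitAddCircle) + v) ∘ D.w k =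
          D.w k ∘ fun p => yc (s / D.Q k) • p := by
        funext p
        simp only [Function.comp_apply]
        rw [w_smul, add_comm]
        congr 2
        simp only [yc, Heis.x_mk, Heis.y_mk]
        field_simp
        ring
      have h2 : Measurable fun v : UnitAddCircle => ((s : ℝ) : UnitAddCircle) + v :=
        (continuous_const_add _).measurable
      have h3 : Measurable fun p : NM => yc (s / D.Q k) • p :=
        (continuous_const_smul _).measurable
      refine (Measure.map_map h2 hm).trans ?_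
      rw [h1, ← Measure.map_map hm h3, haar_map]
  have : (haar.map (D.w k)).IsAddHaarMeasure :=
    Measure.isAddHaarMeasure_of_isCompact_nonempty_interior _ univ isCompact_univ
      (by rw [interior_univ]; exact univ_nonempty) (by rw [measure_univ]; exact one_ne_zero)
      (by rw [measure_univ]; exact ENNReal.one_ne_top)
  exact Measure.isAddHaarMeasure_eq_of_isProbabilityMeasure _ _

/-- The `k`-th term of the series defining the time-change. -/
noncomputable def term (k : ℕ) (g : Heis) : ℝ :=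
  D.δ k * deriv (U (Ak k) (Mk k)) (D.Q k * g.y - D.P k * g.x)

/-- The time-change. -/
noncomputable def α : NM → ℝ :=
  Quotient.lift (fun g : Heis => 1 + ∑' k, D.term k g) (by
    intro a b hab
    obtain ⟨p, q, hp, hq⟩ := leftRel_spec hab
    congr 1
    refine tsum_congr fun k => ?_
    unfold term
    congr 1
    have hper : Function.Periodic (deriv (U (Ak k) (Mk k))) 1 := by
      have := iteratedDeriv_periodic (U_periodic (Ak k) (Mk k)) 1
      rwa [iteratedDeriv_one] at this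
    have h1 := (hper.int_mul (D.Q k * q - D.P k * p : ℤ)) (D.Q k * a.y - D.P k * a.x)
    rw [← h1]
    congr 1
    rw [hp, hq]
    push_cast
    ring)

lemma α_mk (g : Heis) : D.α (g : NM) = 1 + ∑' k, D.term k g := rfl

lemma δB_le (k : ℕ) : D.δ k * Bk k ≤ 1 / 3 * (1 / 2) ^ k := by
  have h1 := D.small k
  have h2 := D.Q_one k
  have h3 : (3 : ℝ) ≤ (3 * D.Q k) ^ (k + 1) := by
    have : (3 : ℝ) * D.Q k ≤ (3 * D.Q k) ^ (k + 1) := by
      rw [pow_succ]
      exact le_mul_of_one_le_left (by positivity) (one_le_pow₀ (by linarith))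
    linarith
  have h4 : 0 < D.δ k * Bk k := mul_pos (D.δ_pos k) (lt_of_lt_of_le one_pos (Bk_ge k))
  have h5 : D.δ k * Bk k * 3 * 2 ^ k ≤ 1 := by
    refine le_trans ?_ h1
    have : D.δ k * Bk k * 3 ≤ (D.Q k * D.θ - D.P k) * Bk k * (3 * D.Q k) ^ (k + 1) :=
      mul_le_mul_of_nonneg_left h3 h4.le
    exact mul_le_mul_of_nonneg_right this (by positivity)
  rw [one_div_pow, one_div_mul_one_div, le_div_iff₀ (by positivity)]
  linarith

lemma deriv_bound (k : ℕ) (x : ℝ) : |deriv (U (Ak k) (Mk k)) x| ≤ Bk k := by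
  have := Bk_bound k 1 (by omega) x
  rwa [iteratedDeriv_one] at this

lemma term_le (k : ℕ) (g : Heis) : |D.term k g| ≤ 1 / 3 * (1 / 2) ^ k := by
  unfold term
  rw [abs_mul, abs_of_pos (D.δ_pos k)]
  exact (mul_le_mul_of_nonneg_left (deriv_bound k _) (D.δ_pos k).le).trans (D.δB_le k)

lemma summable_bound : Summable fun k : ℕ => (1 / 3 : ℝ) * (1 / 2) ^ k :=
  summable_geometric_two.mul_left _

lemma tsum_bound : ∑' k : ℕ, (1 / 3 : ℝ) * (1 / 2) ^ k = 2 / 3 := by
  rw [tsum_mul_left, tsum_geometric_two]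
  norm_num

lemma α_ge (p : NM) : 1 / 3 ≤ D.α p := by
  induction p using QuotientGroup.induction_on with
  | H g =>
    show 1 / 3 ≤ 1 + ∑' k, D.term k g
    have h1 : Summable fun k => ‖D.term k g‖ :=
      Summable.of_nonneg_of_le (fun k => norm_nonneg _) (fun k => D.term_le k g) summable_bound
    have h2 : ‖∑' k, D.term k g‖ ≤ 2 / 3 := by
      refine (norm_tsum_le_tsum_norm h1).trans ?_
      rw [← tsum_bound]
      exact h1.tsum_le_tsum (fun k => D.term_le k g) summable_bound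
    have h3 := (abs_le.1 h2).1
    linarith

/-- The linear form on the coordinates. -/
noncomputable def lin (k : ℕ) : (ℝ × ℝ × ℝ) →L[ℝ] ℝ :=
  (D.Q k : ℝ) • ((ContinuousLinearMap.fst ℝ ℝ ℝ).comp (ContinuousLinearMap.snd ℝ ℝ (ℝ × ℝ))) -
    (D.P k : ℝ) • (ContinuousLinearMap.fst ℝ ℝ (ℝ × ℝ))

lemma lin_apply (k : ℕ) (v : ℝ × ℝ × ℝ) : D.lin k v = D.Q k * v.2.1 - D.P k * v.1 := by
  simp [lin]

lemma norm_lin (k : ℕ) : ‖D.lin k‖ ≤ 3 * D.Q k := by
  refine ContinuousLinearMap.opNorm_le_bound _ (by positivity) fun v => ?_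
  rw [lin_apply, Real.norm_eq_abs]
  have h1 : |v.2.1| ≤ ‖v‖ := (norm_fst_le v.2).trans (norm_snd_le v)
  have h2 : |v.1| ≤ ‖v‖ := norm_fst_le v
  have h3 := D.P2 k
  have h4 : (0 : ℝ) ≤ D.P k := by positivity
  have h5 : (0 : ℝ) ≤ D.Q k := by positivity
  calc |D.Q k * v.2.1 - D.P k * v.1| ≤ |D.Q k * v.2.1| + |D.P k * v.1| := abs_sub _ _
    _ = D.Q k * |v.2.1| + D.P k * |v.1| := by rw [abs_mul, abs_mul, abs_of_nonneg h5,
        abs_of_nonneg h4]
    _ ≤ D.Q k * ‖v‖ + (2 * D.Q k) * ‖v‖ := by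
        apply add_le_add (mul_le_mul_of_nonneg_left h1 h5)
        exact mul_le_mul h3 h2 (abs_nonneg _) (by positivity)
    _ = 3 * D.Q k * ‖v‖ := by ring

lemma deriv_contDiff (k : ℕ) : ContDiff ℝ ∞ (deriv (U (Ak k) (Mk k))) := by
  have := U_contDiff (Ak k) (Mk k)
  rw [contDiff_infty_iff_deriv] at this
  exact this.2

lemma contDiff_aux : ContDiff ℝ ∞ fun v : ℝ × ℝ × ℝ =>
    ∑' k, (D.δ k • (deriv (U (Ak k) (Mk k)) ∘ D.lin k)) v := by
  have hcd : ∀ k, ContDiff ℝ ∞ (deriv (U (Ak k) (Mk k)) ∘ D.lin k) := fun k =>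
    (deriv_contDiff k).comp (D.lin k).contDiff
  refine contDiff_tsum_of_eventually (N := ⊤) (v := fun _ k => (1 / 2 : ℝ) ^ k) ?_ ?_ ?_
  · intro k
    exact (hcd k).const_smul (D.δ k)
  · intro n _
    exact summable_geometric_two
  · intro n _
    rw [Nat.cofinite_eq_atTop]
    filter_upwards [eventually_ge_atTop n] with k hk v
    have h1 : iteratedFDeriv ℝ n (D.δ k • (deriv (U (Ak k) (Mk k)) ∘ D.lin k)) v =
        D.δ k • iteratedFDeriv ℝ n (deriv (U (Ak k) (Mk k)) ∘ D.lin k) v := by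
      exact iteratedFDeriv_const_smul_apply ((hcd k).of_le (by exact_mod_cast le_top)).contDiffAt
    rw [h1, norm_smul, (D.lin k).iteratedFDeriv_comp_right (deriv_contDiff k) v
      (i := n) (by exact_mod_cast le_top), Real.norm_eq_abs, abs_of_pos (D.δ_pos k)]
    have h2 := ContinuousMultilinearMap.norm_compContinuousLinearMap_le
      (iteratedFDeriv ℝ n (deriv (U (Ak k) (Mk k))) (D.lin k v)) (fun _ : Fin n => D.lin k)
    rw [norm_iteratedFDeriv_eq_norm_iteratedDeriv] at h2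
    have h3 : ‖iteratedDeriv n (deriv (U (Ak k) (Mk k))) (D.lin k v)‖ ≤ Bk k := by
      have := Bk_bound k (n + 1) (by omega) (D.lin k v)
      rwa [iteratedDeriv_succ'] at this
    have h4 : ∏ _i : Fin n, ‖D.lin k‖ ≤ (3 * D.Q k) ^ (k + 1) := by
      rw [Finset.prod_const, Finset.card_univ, Fintype.card_fin]
      have hQ := D.Q_one k
      exact (pow_le_pow_left₀ (norm_nonneg _) (D.norm_lin k) n).trans
        (pow_le_pow_right₀ (by linarith) (by omega))
    have hB : 0 < Bk k := lt_of_lt_of_le one_pos (Bk_ge k)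
    have h5 : ‖(iteratedFDeriv ℝ n (deriv (U (Ak k) (Mk k))) (D.lin k v)).compContinuousLinearMap
        fun _ => D.lin k‖ ≤ Bk k * (3 * D.Q k) ^ (k + 1) :=
      h2.trans (mul_le_mul h3 h4 (Finset.prod_nonneg fun _ _ => norm_nonneg _) hB.le)
    refine (mul_le_mul_of_nonneg_left h5 (D.δ_pos k).le).trans ?_
    have h6 := D.small k
    rw [one_div_pow, le_div_iff₀ (by positivity)]
    calc D.δ k * (Bk k * (3 * D.Q k) ^ (k + 1)) * 2 ^ k =
        (D.Q k * D.θ - D.P k) * Bk k * (3 * D.Q k) ^ (k + 1) * 2 ^ k := by unfold δ; ring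
      _ ≤ 1 := h6

/-- The time-change is smooth. -/
lemma α_smooth : ContMDiff 𝓘(ℝ, ℝ × ℝ × ℝ) 𝓘(ℝ, ℝ) ∞ (fun g : Heis => D.α (g : NM)) := by
  have h : ContDiff ℝ ∞ fun v : ℝ × ℝ × ℝ =>
      1 + ∑' k, (D.δ k • (deriv (U (Ak k) (Mk k)) ∘ D.lin k)) v :=
    contDiff_const.add D.contDiff_aux
  have h2 : (fun g : Heis => D.α (g : NM)) = fun v : ℝ × ℝ × ℝ =>
      1 + ∑' k, (D.δ k • (deriv (U (Ak k) (Mk k)) ∘ D.lin k)) v := by
    funext g
    rw [α_mk]
    congr 1
  rw [h2]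
  exact h.contMDiff

lemma α_continuous : Continuous D.α := by
  refine (QuotientGroup.isQuotientMap_mk (N := Gam2)).continuous_iff.2 ?_
  exact D.α_smooth.continuous

end Data

end Pool.Agent.W5h47.Nil
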