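import Mathlib

/-!
# Flows, time-changes, (weak) mixing: definitions
-/

set_option autoImplicit false

open MeasureTheory Filter Topology Set

namespace Pool.Agent.W5h47.Nil

variable {M : Type} [MeasurableSpace M]

/-- `φ` is a flow on `M`. -/
def IsFlow (φ : ℝ → M → M) : Prop :=
  (∀ x, φ 0 x = x) ∧ ∀ s t x, φ (s + t) x = φ s (φ t x)

/-- Every `φ t` is measurable and preserves `μ`. -/
def Preserves (φ : ℝ → M → M) (μ : Measure M) : Prop :=
  ∀ t, Measurable (φ t) ∧ μ.map (φ t) = μ

/-- The flow `φ` is uniquely ergodic: `μ` is an invariant probability measure, and it is the only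
one. -/
def UniquelyErgodic (φ : ℝ → M → M) (μ : Measure M) : Prop :=
  (IsProbabilityMeasure μ ∧ Preserves φ μ) ∧
    ∀ ρ : Measure M, IsProbabilityMeasure ρ → Preserves φ ρ → ρ = μ

/-- `ψ` is the time-change of the flow `φ` of a vector field `X` by the positive function `α`, i.e.
the flow of `X / α`: the point `φ t x` is reached by `ψ` at the time `∫_0^t α (φ s x) ds`. -/
def IsTimeChange (φ : ℝ → M → M) (α : M → ℝ) (ψ : ℝ → M → M) : Prop :=
  ∀ x t, ψ (∫ s in (0 : ℝ)..t, α (φ s x)) x = φ t x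

/-- The time-change by `α` is measurably trivial: `α` is measurably cohomologous to a constant. -/
def MeasurablyTrivial (φ : ℝ → M → M) (μ : Measure M) (α : M → ℝ) : Prop :=
  ∃ (c : ℝ) (u : M → ℝ), Measurable u ∧
    ∀ t, ∀ᵐ x ∂μ, u (φ t x) - u x = ∫ s in (0 : ℝ)..t, (α (φ s x) - c)

/-- The probability measure proportional to `α dμ`. -/
noncomputable def changedMeasure (μ : Measure M) (α : M → ℝ) : Measure M :=
  (ENNReal.ofReal (∫ x, α x ∂μ))⁻¹ • μ.withDensity (fun x => ENNReal.ofReal (α x))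

/-- Weak mixing of a measure preserving flow. -/
def WeaklyMixing (ψ : ℝ → M → M) (ν : Measure M) : Prop :=
  ∀ A B : Set M, MeasurableSet A → MeasurableSet B →
    Tendsto (fun T : ℝ => (1 / T) *
      ∫ s in (0 : ℝ)..T, |ν.real ((ψ s '' A) ∩ B) - ν.real A * ν.real B|) atTop (𝓝 0)

/-- Mixing of a measure preserving flow. -/
def Mixing (ψ : ℝ → M → M) (ν : Measure M) : Prop :=
  ∀ A B : Set M, MeasurableSet A → MeasurableSet B →
    Tendsto (fun t : ℝ => ν.real ((ψ t '' A) ∩ B)) atTop (𝓝 (ν.real A * ν.real B))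

end Pool.Agent.W5h47.Nil
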