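import Pool.Agent.W5h47.Nil.Defs

/-!
# A flow with an eigenfunction is neither weakly mixing nor mixing
-/

set_option autoImplicit false
set_option linter.unusedSectionVars false

open MeasureTheory Filter Topology Set

namespace Pool.Agent.W5h47.Nil

/-- `exp(2πis)`. -/
noncomputable def ex (s : ℝ) : ℂ := Complex.exp (2 * Real.pi * s * Complex.I)

lemma ex_add (s t : ℝ) : ex (s + t) = ex s * ex t := by
  unfold ex
  rw [← Complex.exp_add]
  congr 1
  push_cast
  ring

lemma ex_zero : ex 0 = 1 := by simp [ex]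

lemma ex_neg_mul (s : ℝ) : ex (-s) * ex s = 1 := by
  rw [← ex_add, neg_add_cancel, ex_zero]

lemma ex_int (n : ℤ) : ex n = 1 := by
  unfold ex
  have h := Complex.exp_int_mul_two_pi_mul_I n
  rw [← h]
  congr 1
  push_cast
  ring

lemma ex_half : ex (1 / 2) = -1 := by
  unfold ex
  have h := Complex.exp_pi_mul_I
  rw [← h]
  congr 1
  push_cast
  ring

lemma ex_quarter : ex (1 / 4) = Complex.I := by
  unfold ex
  rw [show (2 * (Real.pi : ℂ) * ((1 / 4 : ℝ) : ℂ) * Complex.I) = Real.pi / 2 * Complex.I by
    push_cast; ring]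
  exact Complex.exp_pi_div_two_mul_I

lemma norm_ex (s : ℝ) : ‖ex s‖ = 1 := by
  unfold ex
  have := Complex.norm_exp_ofReal_mul_I (2 * Real.pi * s)
  push_cast at this
  exact this

lemma continuous_ex : Continuous ex := by
  unfold ex
  fun_prop

variable {M : Type} [MeasurableSpace M]

/-- The points where the rotated function has positive imaginary part. -/
def pos (F : M → ℂ) (s : ℝ) : Set M := {p | 0 < (ex (-s) * F p).im}

section

variable {ψ : ℝ → M → M} {ν : Measure M} [IsProbabilityMeasure ν] (hψ : IsFlow ψ)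
  (hν : Preserves ψ ν) {F : M → ℂ} (hFm : Measurable F)
  (hF : ∀ t p, F (ψ t p) = ex t * F p) (hF0 : ∀ᵐ p ∂ν, F p ≠ 0)

include hFm in
lemma measurableSet_pos (s : ℝ) : MeasurableSet (pos F s) :=
  measurableSet_lt measurable_const (Complex.measurable_im.comp (hFm.const_mul _))

include hψ in
lemma image_eq_preimage (s : ℝ) (A : Set M) : ψ s '' A = ψ (-s) ⁻¹' A := by
  have h1 : ∀ p, ψ (-s) (ψ s p) = p := fun p => by rw [← hψ.2, neg_add_cancel, hψ.1]
  have h2 : ∀ p, ψ s (ψ (-s) p) = p := fun p => by rw [← hψ.2, add_neg_cancel, hψ.1]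
  ext p
  constructor
  · rintro ⟨q, hq, rfl⟩
    simpa [h1] using hq
  · intro hp
    exact ⟨ψ (-s) p, hp, h2 p⟩

include hψ hF in
lemma image_pos (s : ℝ) : ψ s '' pos F 0 = pos F s := by
  rw [image_eq_preimage hψ]
  ext p
  simp only [pos, mem_preimage, mem_ofPred_eq, hF, neg_zero, ex_zero, one_mul]

include hψ hν hFm hF in
lemma measure_pos (s : ℝ) : ν (pos F s) = ν (pos F 0) := by
  rw [← image_pos hψ hF s, image_eq_preimage hψ,
    ← Measure.map_apply (hν (-s)).1 (measurableSet_pos hFm 0), (hν (-s)).2]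

include hψ hν hFm hF hF0 in
lemma pos_pos : 0 < ν.real (pos F 0) := by
  rw [measureReal_def, ENNReal.toReal_pos_iff]
  refine ⟨?_, measure_lt_top _ _⟩
  rw [pos_iff_ne_zero]
  intro h0
  have hs : ∀ s, ν (pos F s) = 0 := fun s => by rw [measure_pos hψ hν hFm hF, h0]
  have hall : ∀ᵐ p ∂ν, p ∉ pos F 0 ∧ p ∉ pos F (1 / 2) ∧ p ∉ pos F (1 / 4) ∧
      p ∉ pos F (-(1 / 4)) := by
    have m : ∀ s, ∀ᵐ p ∂ν, p ∉ pos F s := fun s => by
      rw [ae_iff]; simpa using hs s
    filter_upwards [m 0, m (1 / 2), m (1 / 4), m (-(1 / 4))] with p a b c d using ⟨a, b, c, d⟩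
  have hfalse : ∀ᵐ _p ∂ν, False := by
    filter_upwards [hall, hF0] with p ⟨a, b, c, d⟩ hne
    have e12 : ex (-(1 / 2)) = -1 := by
      have := ex_neg_mul (1 / 2); rw [ex_half] at this
      have h2 : ex (-(1 / 2)) = -(ex (-(1 / 2)) * -1) := by ring
      rw [h2, this]
    have e14 : ex (-(1 / 4)) = -Complex.I := by
      have := ex_neg_mul (1 / 4); rw [ex_quarter] at this
      have h2 : ex (-(1 / 4)) = -((ex (-(1 / 4)) * Complex.I) * Complex.I) := by
        rw [mul_assoc, Complex.I_mul_I]; ring
      rw [h2, this]; ring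
    simp only [pos, mem_ofPred_eq, neg_zero, ex_zero, one_mul, e12, e14, neg_neg, ex_quarter,
      not_lt, neg_mul, Complex.neg_im, Complex.I_mul_im] at a b c d
    apply hne
    apply Complex.ext <;> simp only [Complex.zero_re, Complex.zero_im] <;> linarith
  have := hfalse.exists
  obtain ⟨_, h⟩ := this
  exact h

include hψ hν hFm hF in
lemma pos_le : ν.real (pos F 0) ≤ 1 / 2 := by
  have h1 : ν.real (pos F (1 / 2)) = ν.real (pos F 0) := by
    rw [measureReal_def, measureReal_def, measure_pos hψ hν hFm hF]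
  have e12 : ex (-(1 / 2)) = -1 := by
    have := ex_neg_mul (1 / 2); rw [ex_half] at this
    have h2 : ex (-(1 / 2)) = -(ex (-(1 / 2)) * -1) := by ring
    rw [h2, this]
  have hd : Disjoint (pos F 0) (pos F (1 / 2)) := by
    rw [Set.disjoint_left]
    intro p a b
    simp only [pos, mem_ofPred_eq, neg_zero, ex_zero, one_mul, e12, neg_mul,
      Complex.neg_im] at a b
    linarith
  have h2 := measureReal_union (μ := ν) hd (measurableSet_pos hFm (1 / 2))
  have h3 : ν.real (pos F 0 ∪ pos F (1 / 2)) ≤ 1 := measureReal_le_one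
  linarith

include hψ hν hFm hF hF0 in
lemma not_mixing : ¬ Mixing ψ ν := by
  intro h
  have hm := measurableSet_pos hFm 0
  have h1 := (h _ _ hm hm).comp tendsto_natCast_atTop_atTop
  have h2 : ((fun t : ℝ => ν.real ((ψ t '' pos F 0) ∩ pos F 0)) ∘ fun n : ℕ => (n : ℝ)) =
      fun _ => ν.real (pos F 0) := by
    funext n
    simp only [Function.comp]
    rw [image_pos hψ hF]
    have : pos F (n : ℝ) = pos F 0 := by
      unfold pos
      have e : ex (-(n : ℝ)) = ex (-0) := by
        have := ex_int (-(n : ℤ))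
        push_cast at this
        rw [this, neg_zero, ex_zero]
      rw [e]
    rw [this, inter_self]
  rw [h2] at h1
  have h3 := tendsto_nhds_unique h1 tendsto_const_nhds
  have a := pos_pos hψ hν hFm hF hF0
  have b := pos_le hψ hν hFm hF
  nlinarith

lemma pos_periodic (s : ℝ) : pos F (s + 1) = pos F s := by
  unfold pos
  have e : ex (-(s + 1)) = ex (-s) := by
    have h1 := ex_int (-1)
    have : -(s + 1) = -s + ((-1 : ℤ) : ℝ) := by push_cast; ring
    rw [this, ex_add, h1, mul_one]
  rw [e]

omit [IsProbabilityMeasure ν] in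
include hFm in
lemma measurable_overlap [SFinite ν] :
    Measurable fun s : ℝ => ν (pos F s ∩ pos F 0) := by
  have hS : MeasurableSet {q : ℝ × M | 0 < (ex (-q.1) * F q.2).im ∧ 0 < (ex (-0) * F q.2).im} := by
    have m1 : Measurable fun q : ℝ × M => (ex (-q.1) * F q.2).im :=
      Complex.measurable_im.comp (((continuous_ex.comp continuous_neg).measurable.comp
        measurable_fst).mul (hFm.comp measurable_snd))
    have m2 : Measurable fun q : ℝ × M => (ex (-0) * F q.2).im :=
      Complex.measurable_im.comp ((hFm.comp measurable_snd).const_mul _)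
    exact (measurableSet_lt measurable_const m1).inter (measurableSet_lt measurable_const m2)
  exact measurable_measure_prodMk_left hS

include hFm in
lemma tendsto_overlap :
    Tendsto (fun s : ℝ => ν.real (pos F s ∩ pos F 0)) (𝓝 0) (𝓝 (ν.real (pos F 0))) := by
  have e : ∀ s : ℝ, ν.real (pos F s ∩ pos F 0) =
      ∫ p, (pos F s ∩ pos F 0).indicator (fun _ => (1 : ℝ)) p ∂ν := by
    intro s
    rw [integral_indicator_const _ ((measurableSet_pos hFm s).inter (measurableSet_pos hFm 0))]
    simp
  have e0 : ν.real (pos F 0) = ∫ p, (pos F 0).indicator (fun _ => (1 : ℝ)) p ∂ν := by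
    rw [integral_indicator_const _ (measurableSet_pos hFm 0)]
    simp
  simp_rw [e]
  rw [e0]
  refine tendsto_integral_filter_of_dominated_convergence (fun _ => (1 : ℝ)) ?_ ?_
    (integrable_const _) ?_
  · refine Eventually.of_forall fun s => ?_
    exact (measurable_const.indicator
      ((measurableSet_pos hFm s).inter (measurableSet_pos hFm 0))).aestronglyMeasurable
  · refine Eventually.of_forall fun s => Eventually.of_forall fun p => ?_
    by_cases h : p ∈ pos F s ∩ pos F 0
    · rw [indicator_of_mem h]; simp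
    · rw [indicator_of_notMem h]; simp
  · refine Eventually.of_forall fun p => ?_
    by_cases h : p ∈ pos F 0
    · rw [indicator_of_mem h]
      have hc : Continuous fun s : ℝ => (ex (-s) * F p).im :=
        Complex.continuous_im.comp ((continuous_ex.comp continuous_neg).mul continuous_const)
      have h0 : ∀ᶠ s in 𝓝 (0 : ℝ), 0 < (ex (-s) * F p).im :=
        (hc.tendsto 0).eventually (lt_mem_nhds h)
      refine tendsto_const_nhds.congr' ?_
      filter_upwards [h0] with s hs
      rw [indicator_of_mem (show p ∈ pos F s ∩ pos F 0 from ⟨hs, h⟩)]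
    · rw [indicator_of_notMem h]
      refine tendsto_const_nhds.congr' (Eventually.of_forall fun s => ?_)
      simp only
      rw [indicator_of_notMem (show p ∉ pos F s ∩ pos F 0 from fun hh => h hh.2)]

include hψ hν hFm hF hF0 in
lemma not_weaklyMixing : ¬ WeaklyMixing ψ ν := by
  intro h
  have hm := measurableSet_pos hFm 0
  have h1 := (h _ _ hm hm).comp tendsto_natCast_atTop_atTop
  set a := ν.real (pos F 0) with ha
  have ha0 := pos_pos hψ hν hFm hF hF0
  have ha1 := pos_le hψ hν hFm hF
  rw [← ha] at ha0 ha1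
  set f : ℝ → ℝ := fun s => |ν.real (pos F s ∩ pos F 0) - a * a| with hf
  have hfe : ∀ T : ℝ, ∫ s in (0 : ℝ)..T, |ν.real ((ψ s '' pos F 0) ∩ pos F 0) - a * a| =
      ∫ s in (0 : ℝ)..T, f s := by
    intro T
    refine intervalIntegral.integral_congr fun s _ => ?_
    simp only [hf, image_pos hψ hF]
  have hper : Function.Periodic f 1 := fun s => by simp only [hf, pos_periodic]
  have hfm : Measurable f := by
    have := (measurable_overlap (ν := ν) hFm).ennreal_toReal
    exact ((this.sub_const (a * a))).abs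
  have hfb : ∀ s, ‖f s‖ ≤ 1 + a * a := by
    intro s
    simp only [hf, norm_abs_eq_norm]
    refine (norm_sub_le _ _).trans ?_
    have h1 : ‖ν.real (pos F s ∩ pos F 0)‖ ≤ 1 := by
      rw [Real.norm_of_nonneg measureReal_nonneg]; exact measureReal_le_one
    have h2 : ‖a * a‖ = a * a := Real.norm_of_nonneg (by positivity)
    linarith
  have hint : ∀ t₁ t₂ : ℝ, IntervalIntegrable f volume t₁ t₂ := by
    intro t₁ t₂
    rw [intervalIntegrable_iff]
    exact Measure.integrableOn_of_bounded (by simp) hfm.aestronglyMeasurable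
      (Eventually.of_forall hfb)
  have hpos : 0 < ∫ s in (0 : ℝ)..1, f s := by
    have ht : Tendsto f (𝓝 0) (𝓝 |a - a * a|) :=
      ((tendsto_overlap hFm).sub_const (a * a)).abs
    have hgt : 0 < |a - a * a| := by
      rw [abs_pos]; nlinarith
    have hev : ∀ᶠ s in 𝓝 (0 : ℝ), |a - a * a| / 2 < f s :=
      ht.eventually (lt_mem_nhds (by linarith))
    obtain ⟨δ, hδ, hδ2⟩ := Metric.eventually_nhds_iff.1 hev
    set η := min (δ / 2) 1 with hη
    have hη0 : 0 < η := lt_min (by linarith) one_pos
    have i1 : η * (|a - a * a| / 2) ≤ ∫ s in (0 : ℝ)..η, f s := by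
      have := intervalIntegral.integral_mono_on (a := 0) (b := η) hη0.le
        (continuous_const.intervalIntegrable (μ := volume) (u := fun _ => |a - a * a| / 2) 0 η)
        (hint 0 η) (fun s hs => (hδ2 (by
          rw [Real.dist_eq, sub_zero, abs_of_nonneg hs.1]
          exact lt_of_le_of_lt (hs.2.trans (min_le_left _ _)) (by linarith))).le)
      simpa [mul_div_assoc] using this
    have i2 : 0 ≤ ∫ s in η..1, f s :=
      intervalIntegral.integral_nonneg (min_le_right _ _) fun s _ => abs_nonneg _
    have i3 := intervalIntegral.integral_add_adjacent_intervals (hint 0 η) (hint η 1)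
    have i4 : 0 < η * (|a - a * a| / 2) := by positivity
    linarith
  have hconst : ∀ᶠ n : ℕ in atTop, ((fun T : ℝ => (1 / T) *
      ∫ s in (0 : ℝ)..T, |ν.real ((ψ s '' pos F 0) ∩ pos F 0) - a * a|) ∘
        fun n : ℕ => (n : ℝ)) n = ∫ s in (0 : ℝ)..1, f s := by
    filter_upwards [eventually_gt_atTop 0] with n hn
    simp only [Function.comp]
    rw [hfe]
    have := hper.intervalIntegral_add_zsmul_eq (n : ℤ) 0 hint
    simp only [zero_add, zsmul_eq_mul, mul_one, Int.cast_natCast] at this
    rw [this]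
    have hn' : (n : ℝ) ≠ 0 := by positivity
    field_simp
  have h2 := tendsto_nhds_unique (h1.congr' hconst) tendsto_const_nhds
  linarith

end

end Pool.Agent.W5h47.Nil
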