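import Pool.Agent.W5h47.Nil.Constr

/-!
# The eigenfunction and the non-triviality of the time-change
-/

set_option autoImplicit false
set_option linter.unusedSectionVars false

open MeasureTheory Filter Topology Set
open Pool.Agent.R239.NilRet
open scoped ContDiff Manifold ENNReal

namespace Pool.Agent.W5h47.Nil

namespace Data

variable (D : Data)

/-- The `k`-th term of the Birkhoff integral. -/
noncomputable def bt (k : ℕ) (t : ℝ) (p : NM) : ℝ :=
  Ut (Ak k) (Mk k) (D.w k (phi D.θ t p)) - Ut (Ak k) (Mk k) (D.w k p)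

lemma bt_mk (k : ℕ) (t : ℝ) (g : Heis) : D.bt k t (g : NM) =
    U (Ak k) (Mk k) ((D.Q k * g.y - D.P k * g.x) + D.δ k * t) -
      U (Ak k) (Mk k) (D.Q k * g.y - D.P k * g.x) := by
  unfold bt
  rw [w_phi, w_mk, ← AddCircle.coe_add, Ut_coe, Ut_coe]

lemma U_hasDerivAt (k : ℕ) (x : ℝ) :
    HasDerivAt (U (Ak k) (Mk k)) (deriv (U (Ak k) (Mk k)) x) x :=
  ((U_contDiff _ _).differentiable (by simp)).differentiableAt.hasDerivAt

lemma cocyc_hasSum (t : ℝ) (p : NM) :
    HasSum (fun k => D.bt k t p) (cocyc (phi D.θ) D.α p t - t) := by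
  induction p using QuotientGroup.induction_on with
  | H g =>
    set W : ℕ → ℝ := fun k => D.Q k * g.y - D.P k * g.x with hW
    have hcont : ∀ k, Continuous fun s : ℝ => D.δ k * deriv (U (Ak k) (Mk k)) (W k + D.δ k * s) :=
      fun k => continuous_const.mul ((deriv_contDiff k).continuous.comp (by fun_prop))
    set f : ℕ → C(ℝ, ℝ) := fun k => ⟨_, hcont k⟩ with hf
    have hfle : ∀ k s, |f k s| ≤ 1 / 3 * (1 / 2) ^ k := by
      intro k s
      show |D.δ k * deriv (U (Ak k) (Mk k)) (W k + D.δ k * s)| ≤ _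
      rw [abs_mul, abs_of_pos (D.δ_pos k)]
      exact (mul_le_mul_of_nonneg_left (deriv_bound k _) (D.δ_pos k).le).trans (D.δB_le k)
    have hsum : Summable fun k => ‖(f k).restrict (⟨uIcc 0 t, isCompact_uIcc⟩ :
        TopologicalSpace.Compacts ℝ)‖ := by
      refine Summable.of_nonneg_of_le (fun k => norm_nonneg _) (fun k => ?_) summable_bound
      rw [ContinuousMap.norm_le _ (by positivity)]
      intro x
      exact hfle k _
    have h1 := intervalIntegral.hasSum_intervalIntegral_of_summable_norm hsum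
    have h2 : ∀ k, ∫ s in (0 : ℝ)..t, f k s = D.bt k t (g : NM) := by
      intro k
      rw [bt_mk]
      have h3 : ∀ s ∈ uIcc 0 t, HasDerivAt (fun s => U (Ak k) (Mk k) (W k + D.δ k * s))
          (D.δ k * deriv (U (Ak k) (Mk k)) (W k + D.δ k * s)) s := by
        intro s _
        have h4 : HasDerivAt (fun s => W k + D.δ k * s) (D.δ k) s := by
          simpa using ((hasDerivAt_id s).const_mul (D.δ k)).const_add (W k)
        have h5 := (U_hasDerivAt k (W k + D.δ k * s)).comp s h4
        rw [mul_comm]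
        exact h5
      have h6 := intervalIntegral.integral_eq_sub_of_hasDerivAt h3
        ((hcont k).intervalIntegrable _ _)
      rw [mul_zero, add_zero] at h6
      exact h6
    simp_rw [h2] at h1
    have h7 : ∀ s, D.α (phi D.θ s (g : NM)) = 1 + ∑' k, f k s := by
      intro s
      show D.α ((X D.θ s * g : Heis) : NM) = _
      rw [α_mk]
      congr 1
      refine tsum_congr fun k => ?_
      show D.δ k * deriv (U (Ak k) (Mk k)) _ = D.δ k * deriv (U (Ak k) (Mk k)) _
      congr 2
      simp only [Heis.mul_x, Heis.mul_y, X, Heis.x_mk, Heis.y_mk, hW, δ]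
      ring
    have h8 : ∫ s in (0 : ℝ)..t, (D.α (phi D.θ s (g : NM)) - 1) =
        (∫ s in (0 : ℝ)..t, D.α (phi D.θ s (g : NM))) - t := by
      rw [intervalIntegral.integral_sub ((cont_orbit (phi_continuous D.θ) D.α_continuous
        (g : NM)).intervalIntegrable _ _) (intervalIntegrable_const)]
      simp
    have h9 : cocyc (phi D.θ) D.α (g : NM) t - t = ∫ s in (0 : ℝ)..t, ∑' k, f k s := by
      refine h8.symm.trans ?_
      refine intervalIntegral.integral_congr fun s _ => ?_
      simp only [h7]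
      ring
    rw [h9]
    exact h1

/-! ### The eigenfunction -/

/-- The partial sums of the functions `U`. -/
noncomputable def S (n : ℕ) (p : NM) : ℝ := ∑ k ∈ Finset.range n, Ut (Ak k) (Mk k) (D.w k p)

lemma S_continuous (n : ℕ) : Continuous (D.S n) :=
  continuous_finsetSum _ fun k _ => (Ut_continuous _ _).comp (D.w_continuous k)

lemma S_phi (n : ℕ) (t : ℝ) (p : NM) :
    D.S n (phi D.θ t p) = D.S n p + ∑ k ∈ Finset.range n, D.bt k t p := by
  unfold S bt
  rw [← Finset.sum_add_distrib]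
  exact Finset.sum_congr rfl fun k _ => by ring

/-- The character given by the first coordinate. -/
noncomputable def e1 : NM → ℂ :=
  Quotient.lift (fun g : Heis => ex g.x) (by
    intro a b hab
    obtain ⟨p, q, hp, hq⟩ := leftRel_spec hab
    show ex a.x = ex b.x
    rw [hp, ex_add, ex_int, mul_one])

lemma e1_continuous : Continuous e1 := by
  refine (QuotientGroup.isQuotientMap_mk (N := Gam2)).continuous_iff.2 ?_
  exact continuous_ex.comp Heis.continuous_x

lemma e1_phi (θ t : ℝ) (p : NM) : e1 (phi θ t p) = ex t * e1 p := by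
  induction p using QuotientGroup.induction_on with
  | H g => exact ex_add _ _

lemma norm_e1 (p : NM) : ‖e1 p‖ = 1 := by
  induction p using QuotientGroup.induction_on with
  | H g => exact norm_ex _

/-- The set where the infinite product converges. -/
def conv : Set NM := {p | ∃ c, Tendsto (fun n => ex (D.S n p)) atTop (𝓝 c)}

lemma measurableSet_conv : MeasurableSet D.conv :=
  measurableSet_exists_tendsto fun n => (continuous_ex.comp (D.S_continuous n)).measurable

/-- The measurable eigenfunction. -/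
noncomputable def F : NM → ℂ :=
  D.conv.indicator fun p => e1 p * limUnder atTop fun n => ex (D.S n p)

lemma F_measurable : Measurable D.F := by
  refine Measurable.indicator ?_ D.measurableSet_conv
  refine e1_continuous.measurable.mul ?_
  exact (StronglyMeasurable.limUnder fun n =>
    (continuous_ex.comp (D.S_continuous n)).stronglyMeasurable).measurable

lemma F_of_tendsto {p : NM} {c : ℂ} (h : Tendsto (fun n => ex (D.S n p)) atTop (𝓝 c)) :
    D.F p = e1 p * c := by
  unfold F
  rw [indicator_of_mem (show p ∈ D.conv from ⟨c, h⟩), h.limUnder_eq]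

lemma tendsto_phi {p : NM} {c : ℂ} (t : ℝ)
    (h : Tendsto (fun n => ex (D.S n p)) atTop (𝓝 c)) :
    Tendsto (fun n => ex (D.S n (phi D.θ t p))) atTop
      (𝓝 (c * ex (cocyc (phi D.θ) D.α p t - t))) := by
  simp_rw [S_phi, ex_add]
  exact h.mul ((continuous_ex.tendsto _).comp (D.cocyc_hasSum t p).tendsto_sum_nat)

lemma F_phi (t : ℝ) (p : NM) : D.F (phi D.θ t p) = ex (cocyc (phi D.θ) D.α p t) * D.F p := by
  by_cases hp : p ∈ D.conv
  · obtain ⟨c, hc⟩ := hp
    rw [D.F_of_tendsto hc, D.F_of_tendsto (D.tendsto_phi t hc), e1_phi]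
    have : ex (cocyc (phi D.θ) D.α p t) = ex t * ex (cocyc (phi D.θ) D.α p t - t) := by
      rw [← ex_add]
      congr 1
      ring
    rw [this]
    ring
  · have hp' : phi D.θ t p ∉ D.conv := by
      rintro ⟨c, hc⟩
      have := D.tendsto_phi (-t) hc
      rw [← (phi_isFlow D.θ).2, neg_add_cancel, (phi_isFlow D.θ).1] at this
      exact hp ⟨_, this⟩
    unfold F
    rw [indicator_of_notMem hp, indicator_of_notMem hp', mul_zero]

/-- The exceptional sets. -/
def E (k : ℕ) : Set NM := {p | |cc (D.w k p)| < 1 / Mk k}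

lemma haar_E (k : ℕ) : haar (D.E k) ≤ (2⁻¹ : ℝ≥0∞) ^ (k + 2) := by
  have h1 : D.E k = D.w k ⁻¹' {v | |cc v| < 1 / Mk k} := rfl
  have h2 : MeasurableSet {v : UnitAddCircle | |cc v| < 1 / Mk k} :=
    (isOpen_lt cc_continuous.abs continuous_const).measurableSet
  rw [h1, ← Measure.map_apply (D.w_continuous k).measurable h2, w_map]
  exact Mk_vol k

lemma ae_conv : ∀ᵐ p ∂haar, p ∈ D.conv := by
  have h1 : ∑' k, haar (D.E k) ≠ ⊤ := by
    refine ne_of_lt (lt_of_le_of_lt (ENNReal.tsum_le_tsum fun k => ?_)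
      (ENNReal.tsum_geometric_two.trans_lt ENNReal.ofNat_lt_top))
    refine (D.haar_E k).trans ?_
    exact pow_le_pow_right_of_le_one' (ENNReal.inv_le_one.2 (by norm_num)) (by omega)
  filter_upwards [ae_eventually_notMem h1] with p hp
  obtain ⟨N, hN⟩ := eventually_atTop.1 hp
  refine ⟨ex (D.S N p), tendsto_atTop_of_eventually_const (i₀ := N) fun n hn => ?_⟩
  induction n, hn using Nat.le_induction with
  | base => rfl
  | succ n hn ih =>
    have h2 : D.S (n + 1) p = D.S n p + Ut (Ak n) (Mk n) (D.w n p) := Finset.sum_range_succ _ _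
    have h3 : ¬ |cc (D.w n p)| < 1 / Mk n := hN n hn
    rw [not_lt, le_abs] at h3
    have h4 : ex (Ut (Ak n) (Mk n) (D.w n p)) = 1 := by
      rcases h3 with h3 | h3
      · rw [Ut_of_ge (Mk_pos n) h3]
        have := ex_int (4 ^ n : ℤ)
        unfold Ak
        exact_mod_cast this
      · rw [Ut_of_le (Mk_pos n) (by linarith), ex_zero]
    rw [h2, ex_add, h4, mul_one, ih]

lemma F_ne_zero : ∀ᵐ p ∂haar, D.F p ≠ 0 := by
  filter_upwards [D.ae_conv] with p ⟨c, hc⟩
  rw [D.F_of_tendsto hc]
  have h1 : ‖c‖ = 1 := by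
    have h2 : Tendsto (fun n => ‖ex (D.S n p)‖) atTop (𝓝 ‖c‖) := hc.norm
    simp_rw [norm_ex] at h2
    exact (tendsto_nhds_unique h2 tendsto_const_nhds)
  have h3 : ‖e1 p * c‖ = 1 := by rw [norm_mul, norm_e1, h1, mul_one]
  intro h0
  rw [h0, norm_zero] at h3
  exact zero_ne_one h3

/-! ### Non-triviality -/

/-- The resonance time. -/
noncomputable def T (k : ℕ) : ℝ := 1 / (2 * D.δ k)

lemma w_T (k : ℕ) (p : NM) :
    D.w k (phi D.θ (D.T k) p) = D.w k p + ((1 / 2 : ℝ) : UnitAddCircle) := by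
  rw [w_phi]
  congr 2
  have := (D.δ_pos k).ne'
  unfold T
  field_simp

lemma bt_plus {k : ℕ} {p : NM} (h : 1 / Mk k ≤ cc (D.w k p)) : D.bt k (D.T k) p = -Ak k := by
  unfold bt
  rw [w_T, Ut_of_ge (Mk_pos k) h, Ut_of_le (Mk_pos k) (by rw [cc_half]; linarith)]
  ring

lemma bt_minus {k : ℕ} {p : NM} (h : cc (D.w k p) ≤ -(1 / Mk k)) : D.bt k (D.T k) p = Ak k := by
  unfold bt
  rw [w_T, Ut_of_le (Mk_pos k) h, Ut_of_ge (Mk_pos k) (by rw [cc_half]; linarith)]
  ring

lemma bt_le_A (j : ℕ) (t : ℝ) (p : NM) : |D.bt j t p| ≤ 4 ^ j := by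
  have h1 := Ut_mem (A := Ak j) (by unfold Ak; positivity) (Mk j) (D.w j p)
  have h2 := Ut_mem (A := Ak j) (by unfold Ak; positivity) (Mk j) (D.w j (phi D.θ t p))
  unfold bt
  rw [abs_le]
  unfold Ak at h1 h2 ⊢
  constructor <;> linarith [h1.1, h1.2, h2.1, h2.2]

lemma bt_le_B (j : ℕ) (t : ℝ) (p : NM) : |D.bt j t p| ≤ Bk j * (D.δ j * |t|) := by
  induction p using QuotientGroup.induction_on with
  | H g =>
    rw [bt_mk]
    have := Convex.norm_image_sub_le_of_norm_deriv_le (s := univ)
      (f := U (Ak j) (Mk j)) (C := Bk j) (x := D.Q j * g.y - D.P j * g.x)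
      (y := (D.Q j * g.y - D.P j * g.x) + D.δ j * t)
      (fun x _ => (U_hasDerivAt j x).differentiableAt) (fun x _ => deriv_bound j x)
      convex_univ (mem_univ _) (mem_univ _)
    rw [Real.norm_eq_abs, add_sub_cancel_left, Real.norm_eq_abs, abs_mul,
      abs_of_pos (D.δ_pos j)] at this
    exact this

lemma bt_far {k j : ℕ} (hkj : k < j) (p : NM) : |D.bt j (D.T k) p| ≤ (1 / 2) ^ (j + 1) := by
  refine (D.bt_le_B j _ p).trans ?_
  have h1 := D.sep k j hkj
  have h2 := D.small j
  have hδ := D.δ_pos k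
  have hQ := D.Q_one j
  have h3 : |D.T k| ≤ D.Q j / 2 := by
    unfold T
    rw [abs_of_pos (by positivity), div_le_div_iff₀ (by positivity) (by norm_num)]
    unfold δ
    linarith
  have h4 : (D.Q j : ℝ) ≤ (3 * D.Q j) ^ (j + 1) := by
    have h5 : (D.Q j : ℝ) ≤ 3 * D.Q j := by linarith
    refine h5.trans ?_
    rw [pow_succ]
    exact le_mul_of_one_le_left (by positivity) (one_le_pow₀ (by linarith))
  have hB : 0 < Bk j := lt_of_lt_of_le one_pos (Bk_ge j)
  have hδj := D.δ_pos j
  have h6 : Bk j * (D.δ j * |D.T k|) ≤ Bk j * (D.δ j * ((3 * D.Q j) ^ (j + 1) / 2)) := by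
    refine mul_le_mul_of_nonneg_left (mul_le_mul_of_nonneg_left ?_ hδj.le) hB.le
    linarith
  refine h6.trans ?_
  rw [one_div_pow, le_div_iff₀ (by positivity), pow_succ 2 j]
  calc Bk j * (D.δ j * ((3 * D.Q j) ^ (j + 1) / 2)) * (2 ^ j * 2) =
      (D.Q j * D.θ - D.P j) * Bk j * (3 * D.Q j) ^ (j + 1) * 2 ^ j := by unfold δ; ring
    _ ≤ 1 := h2

lemma sum_four (k : ℕ) : ∑ j ∈ Finset.range k, (4 : ℝ) ^ j ≤ 4 ^ k / 3 := by
  induction k with
  | zero => simp
  | succ k ih =>
    rw [Finset.sum_range_succ, pow_succ]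
    have : (0 : ℝ) ≤ 4 ^ k := by positivity
    linarith

lemma D_est (k : ℕ) (p : NM) :
    |cocyc (phi D.θ) D.α p (D.T k) - D.T k - D.bt k (D.T k) p| ≤ 4 ^ k / 3 + 1 := by
  have h1 := D.cocyc_hasSum (D.T k) p
  have h2 := h1.summable.sum_add_tsum_nat_add (k + 1)
  rw [h1.tsum_eq, Finset.sum_range_succ] at h2
  have h3 : |∑ j ∈ Finset.range k, D.bt j (D.T k) p| ≤ 4 ^ k / 3 := by
    refine (Finset.abs_sum_le_sum_abs _ _).trans ?_
    exact (Finset.sum_le_sum fun j _ => D.bt_le_A j _ p).trans (sum_four k)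
  have h4 : |∑' j, D.bt (j + (k + 1)) (D.T k) p| ≤ 1 := by
    have h5 : ∀ j, ‖D.bt (j + (k + 1)) (D.T k) p‖ ≤ 1 / 2 * (1 / 2) ^ j := by
      intro j
      refine (D.bt_far (by omega) p).trans ?_
      rw [← pow_succ']
      exact pow_le_pow_of_le_one (by norm_num) (by norm_num) (by omega)
    have h6 : HasSum (fun j : ℕ => (1 / 2 : ℝ) * (1 / 2) ^ j) 1 := by
      have := hasSum_geometric_two.mul_left (1 / 2 : ℝ)
      norm_num at this ⊢
      exact this
    exact tsum_of_norm_bounded h6 h5
  have h7 : cocyc (phi D.θ) D.α p (D.T k) - D.T k - D.bt k (D.T k) p =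
      ∑ j ∈ Finset.range k, D.bt j (D.T k) p + ∑' j, D.bt (j + (k + 1)) (D.T k) p := by
    linarith
  rw [h7]
  exact (abs_add_le _ _).trans (add_le_add h3 h4)

/-- The sets where the function `U` is maximal and minimal. -/
def plus (k : ℕ) : Set NM := {p | 1 / Mk k ≤ cc (D.w k p)}
/-- The sets where the function `U` is maximal and minimal. -/
def minus (k : ℕ) : Set NM := {p | cc (D.w k p) ≤ -(1 / Mk k)}

lemma haar_minus (k : ℕ) : haar (D.minus k) = haar (D.plus k) := by
  have h1 : D.minus k = phi D.θ (D.T k) ⁻¹' D.plus k := by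
    ext p
    simp only [minus, plus, mem_preimage, mem_ofPred_eq, w_T, cc_half]
    constructor <;> intro h <;> linarith
  have h2 : MeasurableSet (D.plus k) :=
    (isClosed_le continuous_const (cc_continuous.comp (D.w_continuous k))).measurableSet
  rw [h1, ← Measure.map_apply (phi_preserves D.θ _).1 h2, (phi_preserves D.θ _).2]

lemma haar_plus (k : ℕ) : (3 : ℝ) / 8 ≤ haar.real (D.plus k) := by
  have h1 : (univ : Set NM) ⊆ D.plus k ∪ (D.minus k ∪ D.E k) := by
    intro p _
    by_cases h : |cc (D.w k p)| < 1 / Mk k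
    · exact Or.inr (Or.inr h)
    · rw [not_lt, le_abs] at h
      rcases h with h | h
      · exact Or.inl h
      · refine Or.inr (Or.inl ?_)
        show cc (D.w k p) ≤ -(1 / Mk k)
        linarith
  have h2 : haar.real (univ : Set NM) ≤ haar.real (D.plus k) + (haar.real (D.minus k) +
      haar.real (D.E k)) :=
    (measureReal_mono h1).trans ((measureReal_union_le _ _).trans
      (add_le_add le_rfl (measureReal_union_le _ _)))
  have h3 : haar.real (D.minus k) = haar.real (D.plus k) := by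
    rw [measureReal_def, measureReal_def, haar_minus]
  have h4 : haar.real (D.E k) ≤ 1 / 4 := by
    have h5 : haar (D.E k) ≤ (2⁻¹ : ℝ≥0∞) ^ 2 := by
      refine (D.haar_E k).trans ?_
      exact pow_le_pow_right_of_le_one' (ENNReal.inv_le_one.2 (by norm_num)) (by omega)
    have h6 := ENNReal.toReal_mono (by simp) h5
    rw [measureReal_def]
    refine h6.trans ?_
    rw [ENNReal.toReal_pow, ENNReal.toReal_inv]
    norm_num
  rw [probReal_univ] at h2
  linarith

lemma exists_tight {u : NM → ℝ} (hu : Measurable u) :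
    ∃ R : ℝ, 0 ≤ R ∧ haar.real {p | R < |u p|} ≤ 1 / 8 := by
  have hanti : Antitone fun n : ℕ => {p : NM | (n : ℝ) < |u p|} := by
    intro m n hmn p hp
    have hp' : (n : ℝ) < |u p| := hp
    have : (m : ℝ) ≤ n := by exact_mod_cast hmn
    exact lt_of_le_of_lt this hp'
  have hinter : ⋂ n : ℕ, {p : NM | (n : ℝ) < |u p|} = ∅ := by
    rw [eq_empty_iff_forall_notMem]
    intro p hp
    obtain ⟨n, hn⟩ := exists_nat_gt |u p|
    have := mem_iInter.1 hp n
    exact absurd this (not_lt.2 hn.le)
  have hmeas : ∀ n : ℕ, NullMeasurableSet {p : NM | (n : ℝ) < |u p|} haar := fun n =>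
    (measurableSet_lt measurable_const hu.abs).nullMeasurableSet
  have ht := tendsto_measure_iInter_atTop hmeas hanti ⟨0, measure_ne_top _ _⟩
  rw [hinter, measure_empty] at ht
  have h8 : (0 : ℝ≥0∞) < ENNReal.ofReal (1 / 8) := by simp
  obtain ⟨n, hn⟩ := (ht.eventually (ge_mem_nhds h8)).exists
  refine ⟨n, by positivity, ?_⟩
  exact ENNReal.toReal_le_of_le_ofReal (by norm_num) hn

/-- The time-change is measurably non-trivial. -/
theorem not_trivial : ¬ MeasurablyTrivial (phi D.θ) haar D.α := by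
  rintro ⟨c, u, hu, h⟩
  obtain ⟨R, hR0, hR⟩ := exists_tight hu
  have hcoc : ∀ t p, ∫ s in (0 : ℝ)..t, (D.α (phi D.θ s p) - c) =
      cocyc (phi D.θ) D.α p t - c * t := by
    intro t p
    rw [intervalIntegral.integral_sub ((cont_orbit (phi_continuous D.θ) D.α_continuous
      p).intervalIntegrable _ _) (intervalIntegrable_const)]
    simp [cocyc, mul_comm]
  simp_rw [hcoc] at h
  have key : ∀ k : ℕ, 2 * (4 : ℝ) ^ k - 2 * (4 ^ k / 3 + 1) ≤ 4 * R := by
    intro k
    set T := D.T k with hT
    set B1 : Set NM := {p | R < |u p|} with hB1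
    set B2 : Set NM := phi D.θ T ⁻¹' B1 with hB2
    set B3 : Set NM := {p | ¬ (u (phi D.θ T p) - u p = cocyc (phi D.θ) D.α p T - c * T)} with hB3
    have hm1 : MeasurableSet B1 := measurableSet_lt measurable_const hu.abs
    have hμ2 : haar.real B2 ≤ 1 / 8 := by
      rw [measureReal_def, hB2, ← Measure.map_apply (phi_preserves D.θ T).1 hm1,
        (phi_preserves D.θ T).2]
      exact hR
    have hμ3 : haar.real B3 = 0 := by
      have := h T
      rw [ae_iff] at this
      rw [measureReal_def, this]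
      rfl
    have hμ : haar.real (B1 ∪ (B2 ∪ B3)) ≤ 1 / 4 := by
      refine (measureReal_union_le _ _).trans ?_
      have := measureReal_union_le (μ := haar) B2 B3
      linarith
    have hex : ∀ A : Set NM, (3 : ℝ) / 8 ≤ haar.real A → ∃ p ∈ A,
        |cocyc (phi D.θ) D.α p T - c * T| ≤ 2 * R := by
      intro A hA
      by_contra hcon
      push Not at hcon
      have hsub : A ⊆ B1 ∪ (B2 ∪ B3) := by
        intro p hp
        by_contra hp2
        simp only [mem_union, not_or] at hp2
        obtain ⟨q1, q2, q3⟩ := hp2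
        have a1 : |u p| ≤ R := not_lt.1 q1
        have a2 : |u (phi D.θ T p)| ≤ R := not_lt.1 q2
        have a3 : u (phi D.θ T p) - u p = cocyc (phi D.θ) D.α p T - c * T := by
          by_contra q
          exact q3 q
        have a4 := hcon p hp
        rw [← a3] at a4
        have a5 := abs_sub (u (phi D.θ T p)) (u p)
        linarith
      have := measureReal_mono (μ := haar) hsub
      linarith
    obtain ⟨p, hp, hp2⟩ := hex _ (D.haar_plus k)
    obtain ⟨q, hq, hq2⟩ := hex (D.minus k) (by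
      rw [measureReal_def, haar_minus, ← measureReal_def]
      exact D.haar_plus k)
    have e1 := D.D_est k p
    have e2 := D.D_est k q
    rw [D.bt_plus hp] at e1
    rw [D.bt_minus hq] at e2
    unfold Ak at e1 e2
    have f1 := (abs_le.1 e1).2
    have f2 := (abs_le.1 e2).1
    have f3 := (abs_le.1 hp2).1
    have f4 := (abs_le.1 hq2).2
    linarith
  obtain ⟨k, hk⟩ := pow_unbounded_of_one_lt (3 * R + 3) (by norm_num : (1 : ℝ) < 4)
  have := key k
  linarith

end Data

end Pool.Agent.W5h47.Nil
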