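import Pool.Agent.R239.NilRet.Basic
import Pool.Agent.W5h47.Nil.Defs

/-!
# The Haar measure of the Heisenberg nilmanifold
-/

set_option autoImplicit false

open MeasureTheory Filter Topology Set
open Pool.Agent.R239.NilRet

namespace Pool.Agent.W5h47.Nil

instance : MeasurableSpace Heis := inferInstanceAs (MeasurableSpace (ℝ × ℝ × ℝ))
instance : BorelSpace Heis := inferInstanceAs (BorelSpace (ℝ × ℝ × ℝ))
instance : SecondCountableTopology Heis := inferInstanceAs (SecondCountableTopology (ℝ × ℝ × ℝ))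
instance : LocallyCompactSpace Heis := inferInstanceAs (LocallyCompactSpace (ℝ × ℝ × ℝ))
instance : T2Space Heis := inferInstanceAs (T2Space (ℝ × ℝ × ℝ))

/-- Lebesgue measure on the Heisenberg group. -/
noncomputable def vol : Measure Heis := (volume : Measure (ℝ × ℝ × ℝ))

instance : SigmaFinite vol := inferInstanceAs (SigmaFinite (volume : Measure (ℝ × ℝ × ℝ)))

lemma mp_left (g : Heis) : MeasurePreserving (fun h : Heis => g * h) vol vol := by
  have h1 : MeasurePreserving (fun p : ℝ × ℝ => (g.y + p.1, g.z + p.2 + g.x * p.1))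
      (volume.prod volume) (volume.prod volume) := by
    refine (measurePreserving_add_left (volume : Measure ℝ) g.y).skew_product
      (g := fun y z => g.z + z + g.x * y) (by unfold Function.uncurry; fun_prop)
      (Eventually.of_forall fun y => ?_)
    have : (fun z : ℝ => g.z + z + g.x * y) = fun z => z + (g.z + g.x * y) := by
      funext z; ring
    rw [this]
    exact (measurePreserving_add_right (volume : Measure ℝ) _).map_eq
  exact (measurePreserving_add_left (volume : Measure ℝ) g.x).prod h1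

lemma mp_right (g : Heis) : MeasurePreserving (fun h : Heis => h * g) vol vol := by
  refine (measurePreserving_add_right (volume : Measure ℝ) g.x).skew_product
    (g := fun x (p : ℝ × ℝ) => (p.1 + g.y, p.2 + g.z + x * g.y))
    (by unfold Function.uncurry; fun_prop) (Eventually.of_forall fun x => ?_)
  have h1 := (measurePreserving_add_right (volume : Measure ℝ) g.y).prod
    (measurePreserving_add_right (volume : Measure ℝ) (g.z + x * g.y))
  have h2 : (fun p : ℝ × ℝ => (p.1 + g.y, p.2 + g.z + x * g.y)) =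
      Prod.map (fun x => x + g.y) (fun x_1 => x_1 + (g.z + x * g.y)) := by
    funext p
    simp only [Prod.map]
    congr 1
    ring
  rw [h2]
  exact h1.map_eq

instance : vol.IsMulLeftInvariant := ⟨fun g => (mp_left g).map_eq⟩
instance : vol.IsMulRightInvariant := ⟨fun g => (mp_right g).map_eq⟩

/-- The unit cube. -/
def cube : Set Heis := (Ico (0 : ℝ) 1 ×ˢ (Ico (0 : ℝ) 1 ×ˢ Ico (0 : ℝ) 1) : Set (ℝ × ℝ × ℝ))

lemma measurableSet_cube : MeasurableSet cube :=
  measurableSet_Ico.prod (measurableSet_Ico.prod measurableSet_Ico)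

lemma mem_cube (g : Heis) : g ∈ cube ↔ g.x ∈ Ico (0 : ℝ) 1 ∧ g.y ∈ Ico (0 : ℝ) 1 ∧
    g.z ∈ Ico (0 : ℝ) 1 := Iff.rfl

lemma vol_cube : vol cube = 1 := by
  show (volume : Measure (ℝ × ℝ × ℝ)) (Ico (0 : ℝ) 1 ×ˢ (Ico (0 : ℝ) 1 ×ˢ Ico (0 : ℝ) 1)) = 1
  rw [Measure.volume_eq_prod, Measure.prod_prod, Measure.volume_eq_prod, Measure.prod_prod]
  simp

lemma Gam2_closed : IsClosed (Gam2 : Set Heis) := by
  have : (Gam2 : Set Heis) = Heis.x ⁻¹' (range ((↑) : ℤ → ℝ)) ∩ (Heis.y ⁻¹' (range ((↑) : ℤ → ℝ)) ∩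
      Heis.z ⁻¹' (range ((↑) : ℤ → ℝ))) := by
    ext g
    constructor
    · rintro ⟨⟨p, hp⟩, ⟨q, hq⟩, ⟨r, hr⟩⟩
      exact ⟨⟨p, hp.symm⟩, ⟨q, hq.symm⟩, ⟨r, hr.symm⟩⟩
    · rintro ⟨⟨p, hp⟩, ⟨q, hq⟩, ⟨r, hr⟩⟩
      exact ⟨⟨p, hp.symm⟩, ⟨q, hq.symm⟩, ⟨r, hr.symm⟩⟩
  rw [this]
  have hc : IsClosed (range ((↑) : ℤ → ℝ)) := Int.isClosedEmbedding_coe_real.isClosed_range
  exact (hc.preimage Heis.continuous_x).inter ((hc.preimage Heis.continuous_y).inter
    (hc.preimage Heis.continuous_z))

instance : IsClosed (Gam2 : Set Heis) := Gam2_closed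

/-- The Heisenberg nilmanifold. -/
abbrev NM : Type := Heis ⧸ Gam2

instance : T2Space NM := inferInstance
instance : SecondCountableTopology NM := inferInstance
instance : BorelSpace NM := inferInstance
instance : TopologicalSpace.MetrizableSpace NM :=
  TopologicalSpace.metrizableSpace_of_t3_secondCountable _
instance : HasOuterApproxClosed NM := inferInstance

instance : Countable Gam2 := by
  have : Function.Injective (fun g : Gam2 => ((g.2.1.choose, g.2.2.1.choose, g.2.2.2.choose) :
      ℤ × ℤ × ℤ)) := by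
    rintro g h e
    simp only [Prod.mk.injEq] at e
    obtain ⟨e1, e2, e3⟩ := e
    apply Subtype.ext
    apply Heis.ext
    · rw [g.2.1.choose_spec, h.2.1.choose_spec, e1]
    · rw [g.2.2.1.choose_spec, h.2.2.1.choose_spec, e2]
    · rw [g.2.2.2.choose_spec, h.2.2.2.choose_spec, e3]
  exact this.countable

lemma isFundamentalDomain_cube : IsFundamentalDomain Gam2.op cube vol := by
  refine IsFundamentalDomain.mk' measurableSet_cube.nullMeasurableSet fun g => ?_
  set p : ℤ := -⌊g.x⌋ with hp
  set q : ℤ := -⌊g.y⌋ with hq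
  set r : ℤ := -⌊g.z + g.x * q⌋ with hr
  refine ⟨⟨MulOpposite.op (Heis.mk p q r), mk_mem_Gam2 p q r⟩, ?_, ?_⟩
  · show g * Heis.mk p q r ∈ cube
    rw [mem_cube]
    have hfl : ∀ a : ℝ, a + ((-⌊a⌋ : ℤ) : ℝ) ∈ Ico (0 : ℝ) 1 := by
      intro a
      push_cast
      exact ⟨by linarith [Int.floor_le a], by linarith [Int.lt_floor_add_one a]⟩
    refine ⟨?_, ?_, ?_⟩
    · exact hfl g.x
    · exact hfl g.y
    · have := hfl (g.z + g.x * q)
      simp only [Heis.mul_z, Heis.z_mk, Heis.y_mk]
      rw [← hr] at this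
      convert this using 1
      ring
  · rintro ⟨γ, hγ⟩ hmem
    have hγ' : MulOpposite.unop γ ∈ Gam2 := hγ
    have hmem' : g * MulOpposite.unop γ ∈ cube := hmem
    obtain ⟨⟨p', hp'⟩, ⟨q', hq'⟩, ⟨r', hr'⟩⟩ := hγ'
    rw [mem_cube] at hmem'
    simp only [Heis.mul_x, Heis.mul_y, Heis.mul_z, hp', hq', hr', mem_Ico] at hmem'
    obtain ⟨⟨a1, a2⟩, ⟨b1, b2⟩, ⟨c1, c2⟩⟩ := hmem'
    have e1 : p' = p := by
      have : ⌊g.x⌋ = -p' := by
        rw [Int.floor_eq_iff]; push_cast; constructor <;> linarith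
      omega
    have e2 : q' = q := by
      have : ⌊g.y⌋ = -q' := by
        rw [Int.floor_eq_iff]; push_cast; constructor <;> linarith
      omega
    have e3 : r' = r := by
      have : ⌊g.z + g.x * q⌋ = -r' := by
        rw [Int.floor_eq_iff, ← e2]; push_cast; constructor <;> linarith
      omega
    apply Subtype.ext
    apply MulOpposite.unop_injective
    apply Heis.ext
    · rw [hp', e1]; rfl
    · rw [hq', e2]; rfl
    · rw [hr', e3]; rfl

/-- The Haar probability measure on the nilmanifold. -/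
noncomputable def haar : Measure NM := (vol.restrict cube).map (QuotientGroup.mk : Heis → NM)

lemma measurable_mk : Measurable (QuotientGroup.mk : Heis → NM) :=
  QuotientGroup.continuous_mk.measurable

instance : IsProbabilityMeasure haar := by
  refine ⟨?_⟩
  rw [haar, Measure.map_apply measurable_mk MeasurableSet.univ, preimage_univ,
    Measure.restrict_apply_univ, vol_cube]

instance : HasFundamentalDomain Gam2.op Heis vol := ⟨⟨cube, isFundamentalDomain_cube⟩⟩

instance : QuotientMeasureEqMeasurePreimage vol haar :=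
  isFundamentalDomain_cube.quotientMeasureEqMeasurePreimage_quotientMeasure

instance : SMulInvariantMeasure Heis NM haar :=
  QuotientMeasureEqMeasurePreimage.smulInvariantMeasure_quotient vol

lemma haar_map (g : Heis) : haar.map (fun p : NM => g • p) = haar :=
  (measurePreserving_smul g haar).map_eq

end Pool.Agent.W5h47.Nil
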